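import Pool.Agent.Q112.TS.Def

/-!
# Arcs: random walks with prescribed marginals and large conditional entropy
-/

namespace Q112.TS

open Finset

/-- The log-sum inequality. -/
lemma logsum {ι : Type*} (s : Finset ι) (r w : ι → ℝ) (hr : ∀ i ∈ s, 0 ≤ r i)
    (hw : ∀ i ∈ s, 0 ≤ w i) (h : ∀ i ∈ s, r i ≠ 0 → w i ≠ 0) :
    ∑ i ∈ s, r i * Real.log (w i / r i) ≤
      (∑ i ∈ s, r i) * Real.log ((∑ i ∈ s, w i) / ∑ i ∈ s, r i) := by
  set R := ∑ i ∈ s, r i with hR
  set W := ∑ i ∈ s, w i with hW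
  have hR0 : 0 ≤ R := sum_nonneg hr
  rcases hR0.eq_or_lt with h0 | hRpos
  · have hz : ∀ i ∈ s, r i = 0 := (sum_eq_zero_iff_of_nonneg hr).1 h0.symm
    rw [← h0, zero_mul]
    apply le_of_eq
    apply sum_eq_zero
    intro i hi
    rw [hz i hi, zero_mul]
  have hWpos : 0 < W := by
    obtain ⟨i, hi, hi0⟩ : ∃ i ∈ s, r i ≠ 0 := by
      by_contra hc
      push Not at hc
      exact hRpos.ne' (sum_eq_zero hc)
    exact lt_of_lt_of_le (lt_of_le_of_ne (hw i hi) (h i hi hi0).symm)
      (single_le_sum hw hi)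
  have key : ∀ i ∈ s, r i * Real.log (w i / r i) ≤
      r i * Real.log (W / R) + (w i * R / W - r i) := by
    intro i hi
    by_cases hi0 : r i = 0
    · rw [hi0]
      simp only [zero_mul, zero_add, sub_zero]
      exact div_nonneg (mul_nonneg (hw i hi) hR0) hWpos.le
    · have hri : 0 < r i := lt_of_le_of_ne (hr i hi) (Ne.symm hi0)
      have hwi : 0 < w i := lt_of_le_of_ne (hw i hi) (h i hi hi0).symm
      have h1 : Real.log (w i / r i) - Real.log (W / R) ≤ w i / r i / (W / R) - 1 := by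
        rw [← Real.log_div (by positivity) (by positivity)]
        exact Real.log_le_sub_one_of_pos (by positivity)
      have h2 : r i * (w i / r i / (W / R) - 1) = w i * R / W - r i := by
        field_simp
      nlinarith [mul_le_mul_of_nonneg_left h1 hri.le]
  calc ∑ i ∈ s, r i * Real.log (w i / r i)
      ≤ ∑ i ∈ s, (r i * Real.log (W / R) + (w i * R / W - r i)) := sum_le_sum key
    _ = R * Real.log (W / R) + (W * R / W - R) := by
        rw [sum_add_distrib, sum_sub_distrib, ← sum_mul, ← sum_div, ← sum_mul]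
    _ = R * Real.log (W / R) := by
        rw [mul_div_assoc, mul_div_cancel₀ _ hWpos.ne']; ring

variable {V A : Type} [Fintype V] [DecidableEq V] [Fintype A]

/-- The joint entropy of a law. -/
noncomputable def ent (μ : A → (Fin 3 → V) → ℝ) : ℝ := ∑ a, ∑ e, Real.negMulLog (μ a e)

lemma walks_append (T : Finset (Fin 3 → V)) (w1 w2 : List (Fin 3)) (e g : Fin 3 → V) :
    walks T (w1 ++ w2) e g = ∑ f, walks T w1 e f * walks T w2 f g := by
  induction w1 generalizing e with
  | nil => simp [walks]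
  | cons j w ih =>
    simp only [List.cons_append, walks]
    rw [show (∑ f, (∑ v : V, if Function.update e j v ∈ T then
        walks T w (Function.update e j v) f else 0) * walks T w2 f g) =
        ∑ f, ∑ v : V, (if Function.update e j v ∈ T then
        walks T w (Function.update e j v) f else 0) * walks T w2 f g from
        sum_congr rfl fun f _ => by rw [sum_mul], sum_comm]
    apply sum_congr rfl
    intro v _
    split_ifs with h
    · rw [ih]
    · simp

/-- The relative entropy functional of a coupling. -/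
noncomputable def En (T : Finset (Fin 3 → V)) (w : List (Fin 3))
    (q : A → (Fin 3 → V) → (Fin 3 → V) → ℝ) : ℝ :=
  ∑ a, ∑ e, ∑ g, q a e g * Real.log ((walks T w e g : ℝ) / q a e g)

/-- The entropy of a coupling. -/
noncomputable def Hq (q : A → (Fin 3 → V) → (Fin 3 → V) → ℝ) : ℝ :=
  ∑ a, ∑ e, ∑ g, q a e g * Real.log (1 / q a e g)

/-- `q` is a coupling of `μ` and `ν` along walks with word `w`. -/
structure Cpl (T : Finset (Fin 3 → V)) (w : List (Fin 3)) (μ ν : A → (Fin 3 → V) → ℝ)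
    (q : A → (Fin 3 → V) → (Fin 3 → V) → ℝ) : Prop where
  nonneg : ∀ a e g, 0 ≤ q a e g
  supp : ∀ a e g, q a e g ≠ 0 → walks T w e g ≠ 0
  left : ∀ a e, ∑ g, q a e g = μ a e
  right : ∀ a g, ∑ e, q a e g = ν a g

/-- Composition of couplings. -/
noncomputable def comp (ν : A → (Fin 3 → V) → ℝ) (q1 q2 : A → (Fin 3 → V) → (Fin 3 → V) → ℝ) :
    A → (Fin 3 → V) → (Fin 3 → V) → ℝ :=
  fun a e g => ∑ f, q1 a e f * q2 a f g / ν a f

section comp

variable {T : Finset (Fin 3 → V)} {w1 w2 : List (Fin 3)} {μ ν ρ : A → (Fin 3 → V) → ℝ}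
  {q1 q2 : A → (Fin 3 → V) → (Fin 3 → V) → ℝ}

lemma Cpl.q_eq_zero_left (h : Cpl T w1 μ ν q1) {a : A} {f : Fin 3 → V} (hf : ν a f = 0)
    (e : Fin 3 → V) : q1 a e f = 0 := by
  have := h.right a f
  rw [hf] at this
  exact (sum_eq_zero_iff_of_nonneg fun e _ => h.nonneg a e f).1 this e (mem_univ _)

lemma Cpl.q_eq_zero_right (h : Cpl T w2 ν ρ q2) {a : A} {f : Fin 3 → V} (hf : ν a f = 0)
    (g : Fin 3 → V) : q2 a f g = 0 := by
  have := h.left a f
  rw [hf] at this
  exact (sum_eq_zero_iff_of_nonneg fun e _ => h.nonneg a f e).1 this g (mem_univ _)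

lemma Cpl.nonneg_mid (h : Cpl T w2 ν ρ q2) (a : A) (f : Fin 3 → V) : 0 ≤ ν a f := by
  rw [← h.left a f]
  exact sum_nonneg fun g _ => h.nonneg a f g

lemma sum_right_r (h1 : Cpl T w1 μ ν q1) (h2 : Cpl T w2 ν ρ q2) (a : A) (e f : Fin 3 → V) :
    ∑ g, q1 a e f * q2 a f g / ν a f = q1 a e f := by
  rw [← sum_div, ← mul_sum, h2.left]
  by_cases hf : ν a f = 0
  · rw [h1.q_eq_zero_left hf]; simp
  · field_simp

lemma sum_left_r (h1 : Cpl T w1 μ ν q1) (h2 : Cpl T w2 ν ρ q2) (a : A) (f g : Fin 3 → V) :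
    ∑ e, q1 a e f * q2 a f g / ν a f = q2 a f g := by
  rw [← sum_div, ← sum_mul, h1.right]
  by_cases hf : ν a f = 0
  · rw [h2.q_eq_zero_right hf]; simp
  · field_simp

lemma Cpl.comp (h1 : Cpl T w1 μ ν q1) (h2 : Cpl T w2 ν ρ q2) :
    Cpl T (w1 ++ w2) μ ρ (comp ν q1 q2) where
  nonneg a e g := sum_nonneg fun f _ =>
    div_nonneg (mul_nonneg (h1.nonneg a e f) (h2.nonneg a f g)) (h2.nonneg_mid a f)
  supp a e g h := by
    obtain ⟨f, _, hf⟩ := exists_ne_zero_of_sum_ne_zero h
    have hf1 : q1 a e f ≠ 0 := fun h0 => hf (by rw [h0]; simp)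
    have hf2 : q2 a f g ≠ 0 := fun h0 => hf (by rw [h0]; simp)
    rw [walks_append]
    have h3 : walks T w1 e f * walks T w2 f g ≠ 0 :=
      mul_ne_zero (h1.supp a e f hf1) (h2.supp a f g hf2)
    intro h0
    exact h3 ((sum_eq_zero_iff.1 h0) f (mem_univ _))
  left a e := by
    unfold Q112.TS.comp
    rw [sum_comm, sum_congr rfl fun f _ => sum_right_r h1 h2 a e f, h1.left]
  right a g := by
    unfold Q112.TS.comp
    rw [sum_comm, sum_congr rfl fun f _ => sum_left_r h1 h2 a f g, h2.right]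

/-- The master inequality: for weights `u`, `v` with `∑_f u e f * v f g` bounded. -/
lemma master (h1 : Cpl T w1 μ ν q1) (h2 : Cpl T w2 ν ρ q2)
    (u : A → (Fin 3 → V) → (Fin 3 → V) → ℝ) (v : A → (Fin 3 → V) → (Fin 3 → V) → ℝ)
    (hu : ∀ a e f, 0 ≤ u a e f) (hv : ∀ a f g, 0 ≤ v a f g)
    (hu0 : ∀ a e f, q1 a e f ≠ 0 → u a e f ≠ 0) (hv0 : ∀ a f g, q2 a f g ≠ 0 → v a f g ≠ 0) :
    (∑ a, ∑ e, ∑ f, q1 a e f * Real.log (u a e f / q1 a e f)) +
      (∑ a, ∑ f, ∑ g, q2 a f g * Real.log (v a f g / q2 a f g)) +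
      (∑ a, ∑ f, ν a f * Real.log (ν a f)) ≤
    ∑ a, ∑ e, ∑ g, comp ν q1 q2 a e g *
      Real.log ((∑ f, u a e f * v a f g) / comp ν q1 q2 a e g) := by
  have step : ∀ a e g, ∑ f, (q1 a e f * q2 a f g / ν a f) *
      (Real.log (u a e f / q1 a e f) + Real.log (v a f g / q2 a f g) + Real.log (ν a f)) ≤
      comp ν q1 q2 a e g * Real.log ((∑ f, u a e f * v a f g) / comp ν q1 q2 a e g) := by
    intro a e g
    refine le_trans (le_of_eq ?_) (logsum univ (fun f => q1 a e f * q2 a f g / ν a f)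
      (fun f => u a e f * v a f g)
      (fun f _ => div_nonneg (mul_nonneg (h1.nonneg a e f) (h2.nonneg a f g)) (h2.nonneg_mid a f))
      (fun f _ => mul_nonneg (hu a e f) (hv a f g)) ?_)
    · apply sum_congr rfl
      intro f _
      by_cases h0 : q1 a e f * q2 a f g / ν a f = 0
      · rw [h0]; simp
      · have hf1 : q1 a e f ≠ 0 := fun h => h0 (by rw [h]; simp)
        have hf2 : q2 a f g ≠ 0 := fun h => h0 (by rw [h]; simp)
        have hf3 : ν a f ≠ 0 := fun h => h0 (by rw [h]; simp)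
        have hu1 := hu0 a e f hf1
        have hv1 := hv0 a f g hf2
        congr 1
        rw [← Real.log_mul (by positivity) (by positivity), ← Real.log_mul (by positivity) hf3]
        congr 1
        field_simp
    · intro f _ h0
      have hf1 : q1 a e f ≠ 0 := fun h => h0 (by rw [h]; simp)
      have hf2 : q2 a f g ≠ 0 := fun h => h0 (by rw [h]; simp)
      exact mul_ne_zero (hu0 a e f hf1) (hv0 a f g hf2)
  refine le_trans (le_of_eq ?_) (sum_le_sum fun a _ => sum_le_sum fun e _ => sum_le_sum fun g _ =>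
    step a e g)
  rw [← sum_add_distrib, ← sum_add_distrib]
  apply sum_congr rfl
  intro a _
  have e1 : ∑ e, ∑ g, ∑ f, (q1 a e f * q2 a f g / ν a f) *
      Real.log (u a e f / q1 a e f) = ∑ e, ∑ f, q1 a e f * Real.log (u a e f / q1 a e f) := by
    apply sum_congr rfl
    intro e _
    rw [sum_comm]
    apply sum_congr rfl
    intro f _
    rw [← sum_mul, sum_right_r h1 h2]
  have e2 : ∑ e, ∑ g, ∑ f, (q1 a e f * q2 a f g / ν a f) *
      Real.log (v a f g / q2 a f g) = ∑ f, ∑ g, q2 a f g * Real.log (v a f g / q2 a f g) := by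
    rw [sum_comm, show (∑ g, ∑ e, ∑ f, (q1 a e f * q2 a f g / ν a f) *
      Real.log (v a f g / q2 a f g)) = ∑ g, ∑ f, ∑ e, (q1 a e f * q2 a f g / ν a f) *
      Real.log (v a f g / q2 a f g) from sum_congr rfl fun g _ => sum_comm, sum_comm]
    apply sum_congr rfl
    intro f _
    apply sum_congr rfl
    intro g _
    rw [← sum_mul, sum_left_r h1 h2]
  have e3 : ∑ e, ∑ g, ∑ f, (q1 a e f * q2 a f g / ν a f) *
      Real.log (ν a f) = ∑ f, ν a f * Real.log (ν a f) := by
    rw [show (∑ e, ∑ g, ∑ f, (q1 a e f * q2 a f g / ν a f) * Real.log (ν a f)) =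
      ∑ e, ∑ f, q1 a e f * Real.log (ν a f) from by
        apply sum_congr rfl
        intro e _
        rw [sum_comm]
        apply sum_congr rfl
        intro f _
        rw [← sum_mul, sum_right_r h1 h2], sum_comm]
    apply sum_congr rfl
    intro f _
    rw [← sum_mul, h1.right]
  rw [← e1, ← e2, ← e3, ← sum_add_distrib, ← sum_add_distrib]
  apply sum_congr rfl
  intro e _
  rw [← sum_add_distrib, ← sum_add_distrib]
  apply sum_congr rfl
  intro g _
  rw [← sum_add_distrib, ← sum_add_distrib]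
  apply sum_congr rfl
  intro f _
  ring

lemma ent_eq (ν : A → (Fin 3 → V) → ℝ) : ent ν = - ∑ a, ∑ f, ν a f * Real.log (ν a f) := by
  unfold ent
  rw [← sum_neg_distrib]
  apply sum_congr rfl
  intro a _
  rw [← sum_neg_distrib]
  apply sum_congr rfl
  intro f _
  unfold Real.negMulLog
  ring

lemma En_comp (h1 : Cpl T w1 μ ν q1) (h2 : Cpl T w2 ν ρ q2) :
    En T w1 q1 + En T w2 q2 - ent ν ≤ En T (w1 ++ w2) (comp ν q1 q2) := by
  have := master h1 h2 (fun _ e f => (walks T w1 e f : ℝ)) (fun _ f g => (walks T w2 f g : ℝ))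
    (fun _ _ _ => Nat.cast_nonneg _) (fun _ _ _ => Nat.cast_nonneg _)
    (fun a e f h => by exact_mod_cast h1.supp a e f h)
    (fun a f g h => by exact_mod_cast h2.supp a f g h)
  unfold En
  rw [ent_eq]
  simp only [walks_append, Nat.cast_sum, Nat.cast_mul]
  linarith

/-- Auxiliary: `∑ q log (m / q) = Hq q - ent m` for a marginal `m`. -/
lemma Hq_sub_right (h : Cpl T w2 ν ρ q2) :
    ∑ a, ∑ f, ∑ g, q2 a f g * Real.log (ν a f / q2 a f g) = Hq q2 - ent ν := by
  unfold Hq
  rw [ent_eq, sub_neg_eq_add, ← sum_add_distrib]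
  apply sum_congr rfl
  intro a _
  rw [← sum_add_distrib]
  apply sum_congr rfl
  intro f _
  rw [show ν a f * Real.log (ν a f) = ∑ g, q2 a f g * Real.log (ν a f) from by
    rw [← sum_mul, h.left], ← sum_add_distrib]
  apply sum_congr rfl
  intro g _
  by_cases h0 : q2 a f g = 0
  · rw [h0]; simp
  · have h3 : ν a f ≠ 0 := fun h' => h0 (h.q_eq_zero_right h' g)
    rw [Real.log_div h3 h0, Real.log_div one_ne_zero h0, Real.log_one]
    ring

lemma Hq_sub_left (h : Cpl T w1 μ ν q1) :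
    ∑ a, ∑ e, ∑ f, q1 a e f * Real.log (ν a f / q1 a e f) = Hq q1 - ent ν := by
  unfold Hq
  rw [ent_eq, sub_neg_eq_add, ← sum_add_distrib]
  apply sum_congr rfl
  intro a _
  rw [show (∑ f, ν a f * Real.log (ν a f)) = ∑ e, ∑ f, q1 a e f * Real.log (ν a f) from by
    rw [sum_comm]
    apply sum_congr rfl
    intro f _
    rw [← sum_mul, h.right], ← sum_add_distrib]
  apply sum_congr rfl
  intro e _
  rw [← sum_add_distrib]
  apply sum_congr rfl
  intro f _
  by_cases h0 : q1 a e f = 0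
  · rw [h0]; simp
  · have h3 : ν a f ≠ 0 := fun h' => h0 (h.q_eq_zero_left h' e)
    rw [Real.log_div h3 h0, Real.log_div one_ne_zero h0, Real.log_one]
    ring

/-- Data processing, left. -/
lemma dpi_left (h1 : Cpl T w1 μ ν q1) (h2 : Cpl T w2 ν ρ q2) :
    Hq q1 - ent ν ≤ Hq (comp ν q1 q2) - ent ρ := by
  have hc := h1.comp h2
  have := master h1 h2 (fun a _ f => ν a f) (fun a f g => q2 a f g / ν a f)
    (fun a _ f => h2.nonneg_mid a f)
    (fun a f g => div_nonneg (h2.nonneg a f g) (h2.nonneg_mid a f))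
    (fun a e f h h' => h (h1.q_eq_zero_left h' e))
    (fun a f g h => div_ne_zero h (fun h' => h (h2.q_eq_zero_right h' g)))
  rw [Hq_sub_left h1, show (∑ a, ∑ f, ∑ g, q2 a f g * Real.log (q2 a f g / ν a f / q2 a f g)) =
      - ∑ a, ∑ f, ν a f * Real.log (ν a f) from by
    rw [← sum_neg_distrib]
    apply sum_congr rfl
    intro a _
    rw [← sum_neg_distrib]
    apply sum_congr rfl
    intro f _
    rw [show ν a f * Real.log (ν a f) = ∑ g, q2 a f g * Real.log (ν a f) from by
      rw [← sum_mul, h2.left], ← sum_neg_distrib]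
    apply sum_congr rfl
    intro g _
    by_cases h0 : q2 a f g = 0
    · rw [h0]; simp
    · have h3 : ν a f ≠ 0 := fun h' => h0 (h2.q_eq_zero_right h' g)
      rw [div_div, mul_comm (ν a f), ← div_div, div_self h0, Real.log_div one_ne_zero h3,
        Real.log_one]
      ring] at this
  rw [← Hq_sub_left hc]
  refine le_trans (by linarith) (le_trans this (le_of_eq ?_))
  apply sum_congr rfl
  intro a _
  apply sum_congr rfl
  intro e _
  apply sum_congr rfl
  intro g _
  congr 3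
  rw [← h2.right]
  apply sum_congr rfl
  intro f _
  by_cases h3 : ν a f = 0
  · rw [h3, h2.q_eq_zero_right h3]; simp
  · field_simp

/-- Data processing, right. -/
lemma dpi_right (h1 : Cpl T w1 μ ν q1) (h2 : Cpl T w2 ν ρ q2) :
    Hq q2 - ent ν ≤ Hq (comp ν q1 q2) - ent μ := by
  have hc := h1.comp h2
  have := master h1 h2 (fun a e f => q1 a e f / ν a f) (fun a f _ => ν a f)
    (fun a e f => div_nonneg (h1.nonneg a e f) (h2.nonneg_mid a f))
    (fun a f _ => h2.nonneg_mid a f)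
    (fun a e f h => div_ne_zero h (fun h' => h (h1.q_eq_zero_left h' e)))
    (fun a f g h h' => h (h2.q_eq_zero_right h' g))
  rw [Hq_sub_right h2, show (∑ a, ∑ e, ∑ f, q1 a e f * Real.log (q1 a e f / ν a f / q1 a e f)) =
      - ∑ a, ∑ f, ν a f * Real.log (ν a f) from by
    rw [← sum_neg_distrib]
    apply sum_congr rfl
    intro a _
    rw [← sum_neg_distrib, sum_comm]
    apply sum_congr rfl
    intro f _
    rw [show ν a f * Real.log (ν a f) = ∑ e, q1 a e f * Real.log (ν a f) from by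
      rw [← sum_mul, h1.right], ← sum_neg_distrib]
    apply sum_congr rfl
    intro e _
    by_cases h0 : q1 a e f = 0
    · rw [h0]; simp
    · have h3 : ν a f ≠ 0 := fun h' => h0 (h1.q_eq_zero_left h' e)
      rw [div_div, mul_comm (ν a f), ← div_div, div_self h0, Real.log_div one_ne_zero h3,
        Real.log_one]
      ring] at this
  rw [← Hq_sub_right hc]
  refine le_trans (by linarith) (le_trans this (le_of_eq ?_))
  apply sum_congr rfl
  intro a _
  apply sum_congr rfl
  intro e _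
  apply sum_congr rfl
  intro g _
  congr 3
  rw [← h1.left]
  apply sum_congr rfl
  intro f _
  by_cases h3 : ν a f = 0
  · rw [h3, h1.q_eq_zero_left h3]; simp
  · field_simp

end comp

/-- An arc of word `w` from `μ` to `ν` with conditional entropy at least `S`. -/
def Arc (T : Finset (Fin 3 → V)) (w : List (Fin 3)) (μ ν : A → (Fin 3 → V) → ℝ) (S : ℝ) : Prop :=
  ∃ q, Cpl T w μ ν q ∧ ent μ + S ≤ En T w q

/-- An arc whose end points are nearly independent. -/
def ArcI (T : Finset (Fin 3 → V)) (w : List (Fin 3)) (μ ν : A → (Fin 3 → V) → ℝ) (S κ : ℝ) :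
    Prop :=
  ∃ q, Cpl T w μ ν q ∧ ent μ + S ≤ En T w q ∧ ent μ + ent ν - κ ≤ Hq q

variable {T : Finset (Fin 3 → V)} {w1 w2 w : List (Fin 3)} {μ ν ρ : A → (Fin 3 → V) → ℝ}
  {S S1 S2 κ : ℝ}

lemma Arc.comp (h1 : Arc T w1 μ ν S1) (h2 : Arc T w2 ν ρ S2) :
    Arc T (w1 ++ w2) μ ρ (S1 + S2) := by
  obtain ⟨q1, c1, e1⟩ := h1
  obtain ⟨q2, c2, e2⟩ := h2
  exact ⟨_, c1.comp c2, by linarith [En_comp c1 c2]⟩

lemma ArcI.comp_left (h1 : ArcI T w1 μ ν S1 κ) (h2 : Arc T w2 ν ρ S2) :
    ArcI T (w1 ++ w2) μ ρ (S1 + S2) κ := by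
  obtain ⟨q1, c1, e1, i1⟩ := h1
  obtain ⟨q2, c2, e2⟩ := h2
  exact ⟨_, c1.comp c2, by linarith [En_comp c1 c2], by linarith [dpi_left c1 c2]⟩

lemma Arc.mono (h : Arc T w μ ν S) {S' : ℝ} (hS : S' ≤ S) : Arc T w μ ν S' := by
  obtain ⟨q, c, e⟩ := h
  exact ⟨q, c, by linarith⟩

/-- If there is at most one walk with word `w` between any two triples, an arc gives an arc with
nearly independent end points. -/
lemma Arc.toI (h : Arc T w μ ν S) (hw : ∀ e g, walks T w e g ≤ 1) :
    ArcI T w μ ν S (ent ν - S) := by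
  obtain ⟨q, c, e⟩ := h
  refine ⟨q, c, e, ?_⟩
  have h1 : En T w q ≤ Hq q := by
    unfold En Hq
    refine sum_le_sum fun a _ => sum_le_sum fun e _ => sum_le_sum fun g _ => ?_
    by_cases h0 : q a e g = 0
    · rw [h0]; simp
    · have hq : 0 < q a e g := lt_of_le_of_ne (c.nonneg a e g) (Ne.symm h0)
      have h2 : (0 : ℝ) < walks T w e g := by
        exact_mod_cast Nat.pos_of_ne_zero (c.supp a e g h0)
      apply mul_le_mul_of_nonneg_left _ hq.le
      apply Real.log_le_log (by positivity)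
      gcongr
      exact_mod_cast hw e g
  linarith

end Q112.TS
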