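import Pool.Agent.Q112.TS.Main

/-!
# Closing the walk
-/

namespace Q112.TS

open Finset

variable {V : Type} [Fintype V] [DecidableEq V] {T : Finset (Fin 3 → V)}

lemma walks_step {j : Fin 3} {w : List (Fin 3)} {e g : Fin 3 → V} (v : V)
    (h : Function.update e j v ∈ T) :
    walks T w (Function.update e j v) g ≤ walks T (j :: w) e g := by
  simp only [walks]
  have := single_le_sum (f := fun v : V => if Function.update e j v ∈ T then
    walks T w (Function.update e j v) g else 0) (fun _ _ => Nat.zero_le _) (mem_univ v)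
  simpa [h] using this

/-- The admissible values of the glued vertex. -/
def gl (T : Finset (Fin 3 → V)) (e f : Fin 3 → V) : Finset V :=
  univ.filter fun z => Function.update f 2 z ∈ T ∧
    Function.update (Function.update f 2 z) 0 (e 0) ∈ T ∧
    Function.update (Function.update (Function.update f 2 z) 0 (e 0)) 1 (e 1) ∈ T

lemma gl_update (e f : Fin 3 → V) (z : V) : gl T e (Function.update f 2 z) = gl T e f := by
  simp [gl]

lemma gl_le {e f : Fin 3 → V} (he : e ∈ T) : (gl T e f).card ≤ walks T [2, 0, 1, 2] f e := by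
  rw [show walks T [2, 0, 1, 2] f e = ∑ v : V, if Function.update f 2 v ∈ T then
      walks T [0, 1, 2] (Function.update f 2 v) e else 0 from rfl, card_eq_sum_ones]
  rw [← sum_filter]
  have hsub : gl T e f ⊆ univ.filter fun v => Function.update f 2 v ∈ T := by
    intro z hz
    simp only [gl, mem_filter, mem_univ, true_and] at hz ⊢
    exact hz.1
  refine le_trans (sum_le_sum fun z hz => ?_) (sum_le_sum_of_subset hsub)
  simp only [gl, mem_filter, mem_univ, true_and] at hz
  obtain ⟨_, h2, h3⟩ := hz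
  have h4 : Function.update (Function.update (Function.update (Function.update f 2 z) 0 (e 0)) 1
      (e 1)) 2 (e 2) = e := by
    funext k
    fin_cases k <;> simp
  calc 1 = walks T [] (Function.update (Function.update (Function.update (Function.update f 2 z) 0
        (e 0)) 1 (e 1)) 2 (e 2)) e := by rw [h4]; simp [walks]
    _ ≤ walks T [2] (Function.update (Function.update (Function.update f 2 z) 0 (e 0)) 1
        (e 1)) e := walks_step _ (by rw [h4]; exact he)
    _ ≤ walks T [1, 2] (Function.update (Function.update f 2 z) 0 (e 0)) e := walks_step _ h3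
    _ ≤ walks T [0, 1, 2] (Function.update f 2 z) e := walks_step _ h2

lemma gl_mem {a : V × V} {e f : Fin 3 → V} (he : mu3 T a e ≠ 0) (hf : mu1 T a f ≠ 0) :
    f 2 ∈ gl T e f := by
  obtain ⟨h1, h2, h3⟩ := mu1_ne hf
  obtain ⟨h4, h5, h6⟩ := mu3_ne he
  simp only [gl, mem_filter, mem_univ, true_and]
  refine ⟨by simpa using h1, ?_, ?_⟩
  · have : Function.update (Function.update f 2 (f 2)) 0 (e 0) =
        Function.update (Function.update e 2 a.2) 1 a.1 := by
      funext k
      fin_cases k <;> simp [h2, h3]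
    rw [this]; exact h6
  · have : Function.update (Function.update (Function.update f 2 (f 2)) 0 (e 0)) 1 (e 1) =
        Function.update e 2 a.2 := by
      funext k
      fin_cases k <;> simp [h3]
    rw [this]; exact h5

lemma walks_le_one {w : List (Fin 3)} (hw : w = [0, 1, 2]) (e g : Fin 3 → V) :
    walks T w e g ≤ 1 := by
  subst hw
  have key : ∀ (j : Fin 3) (w : List (Fin 3)) (c : ℕ) (e : Fin 3 → V) (P : V → Prop)
      (_ : ∀ v, ¬ P v → walks T w (Function.update e j v) g = 0)
      (_ : ∀ v v', P v → P v' → v = v') (_ : ∀ v, walks T w (Function.update e j v) g ≤ c),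
      walks T (j :: w) e g ≤ c := by
    intro j w c e P h1 h2 h3
    simp only [walks]
    by_cases hP : ∃ v, P v
    · obtain ⟨v, hv⟩ := hP
      rw [sum_eq_single v]
      · split_ifs
        · exact h3 v
        · exact Nat.zero_le _
      · intro v' _ hne
        rw [h1 v' (fun h => hne (h2 v' v h hv))]
        simp
      · intro h; exact absurd (mem_univ _) h
    · push Not at hP
      rw [sum_eq_zero]
      · exact Nat.zero_le _
      · intro v _
        rw [h1 v (hP v)]
        simp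
  -- walks with the last letters
  have z2 : ∀ e : Fin 3 → V, (e 0 ≠ g 0 ∨ e 1 ≠ g 1) → walks T [2] e g = 0 := by
    intro e he
    simp only [walks]
    apply sum_eq_zero
    intro v _
    split_ifs with h1 h2
    · exfalso
      rcases he with h | h
      · exact h (by rw [← h2]; simp)
      · exact h (by rw [← h2]; simp)
    · rfl
    · rfl
  have z1 : ∀ e : Fin 3 → V, e 0 ≠ g 0 → walks T [1, 2] e g = 0 := by
    intro e he
    rw [show walks T [1, 2] e g = ∑ v : V, if Function.update e 1 v ∈ T then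
      walks T [2] (Function.update e 1 v) g else 0 from rfl]
    apply sum_eq_zero
    intro v _
    rw [z2 _ (Or.inl (by simpa using he))]
    simp
  have b0 : ∀ e : Fin 3 → V, walks T [] e g ≤ 1 := by
    intro e
    simp only [walks]
    split_ifs <;> simp
  have b2 : ∀ e : Fin 3 → V, walks T [2] e g ≤ 1 := by
    intro e
    apply key 2 [] 1 e (fun v => v = g 2)
    · intro v hv
      simp only [walks]
      rw [if_neg]
      intro h
      exact hv (by rw [← h]; simp)
    · intro v v' h h'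
      rw [h, h']
    · intro v
      exact b0 _
  have b1 : ∀ e : Fin 3 → V, walks T [1, 2] e g ≤ 1 := by
    intro e
    apply key 1 [2] 1 e (fun v => v = g 1)
    · intro v hv
      exact z2 _ (Or.inr (by simpa using hv))
    · intro v v' h h'
      rw [h, h']
    · intro v
      exact b2 _
  apply key 0 [1, 2] 1 e (fun v => v = g 0)
  · intro v hv
    exact z1 _ (by simpa using hv)
  · intro v v' h h'
    rw [h, h']
  · intro v
    exact b1 _

/-- The closing lemma. -/
lemma closing (hT : T.Nonempty) {w : List (Fin 3)} {S κ : ℝ}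
    (h : ArcI T w (mu3 T) (mu1 T) S κ) :
    (ent (mu3 T) + S) + (ent (mu3 T) + ent (mu1 T) - κ) - 5 * Real.log (Fintype.card V) ≤
      Real.log ((∑ e ∈ T, walks T (w ++ [2, 0, 1, 2]) e e : ℕ) : ℝ) := by
  classical
  obtain ⟨q, c, hE, hH⟩ := h
  have hTc : (0 : ℝ) < T.card := by exact_mod_cast hT.card_pos
  obtain ⟨e0, he0⟩ := hT
  haveI : Nonempty V := ⟨e0 0⟩
  have hn : (0 : ℝ) < Fintype.card V := by exact_mod_cast Fintype.card_pos
  have hL3 : Law T (fun a => ∑ e, mu1 T a e) (mu3 T) := ((mu1_law T).Qr_law 1).Qr_law 2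
  have hsum : ∑ x : (V × V) × (Fin 3 → V) × (Fin 3 → V), q x.1 x.2.1 x.2.2 = 1 := by
    rw [Fintype.sum_prod_type]
    simp only [Fintype.sum_prod_type (α₁ := Fin 3 → V), c.left]
    rw [sum_comm, ← sum_subset (subset_univ T)]
    · rw [sum_congr rfl hL3.unif, sum_const, nsmul_eq_mul]
      field_simp
    · intro e _ he
      apply sum_eq_zero
      intro a _
      by_contra h0
      exact he (hL3.supp a e h0)
  have hq : ∀ a e f, q a e f ≠ 0 → mu3 T a e ≠ 0 ∧ mu1 T a f ≠ 0 := by
    intro a e f h0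
    exact ⟨fun h => h0 (c.q_eq_zero_right h f), fun h => h0 (c.q_eq_zero_left h e)⟩
  have hgl : ∀ a e f, q a e f ≠ 0 → (gl T e f).card ≠ 0 := by
    intro a e f h0
    obtain ⟨h1, h2⟩ := hq a e f h0
    exact (card_pos.2 ⟨_, gl_mem h1 h2⟩).ne'
  -- first inequality
  have i1 := logsum (univ : Finset ((V × V) × (Fin 3 → V) × (Fin 3 → V)))
    (fun x => q x.1 x.2.1 x.2.2)
    (fun x => if (x.1 = (x.2.2 1, x.2.2 2) ∧ x.2.1 ∈ T) then
      (walks T w x.2.1 x.2.2 : ℝ) * (gl T x.2.1 x.2.2).card else 0)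
    (fun x _ => c.nonneg _ _ _)
    (fun x _ => by split_ifs <;> positivity)
    (fun x _ h0 => by
      obtain ⟨h1, h2⟩ := hq _ _ _ h0
      have h3 := mu1_ne h2
      rw [if_pos ⟨Prod.ext h3.2.1.symm h3.2.2.symm, hL3.supp _ _ h1⟩]
      have := hgl _ _ _ h0
      have := c.supp _ _ _ h0
      positivity)
  rw [hsum, one_mul, div_one] at i1
  have i2 := logsum (univ : Finset ((V × V) × (Fin 3 → V) × (Fin 3 → V)))
    (fun x => q x.1 x.2.1 x.2.2)
    (fun x => if (x.1 = (x.2.2 1, x.2.2 2) ∧ x.2.2 2 ∈ gl T x.2.1 x.2.2) then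
      (1 : ℝ) / (gl T x.2.1 x.2.2).card else 0)
    (fun x _ => c.nonneg _ _ _)
    (fun x _ => by split_ifs <;> positivity)
    (fun x _ h0 => by
      obtain ⟨h1, h2⟩ := hq _ _ _ h0
      have h3 := mu1_ne h2
      rw [if_pos ⟨Prod.ext h3.2.1.symm h3.2.2.symm, gl_mem h1 h2⟩]
      have := hgl _ _ _ h0
      positivity)
  rw [hsum, one_mul, div_one] at i2
  -- total masses
  have m1 : ∑ x : (V × V) × (Fin 3 → V) × (Fin 3 → V),
      (if (x.1 = (x.2.2 1, x.2.2 2) ∧ x.2.1 ∈ T) then
      (walks T w x.2.1 x.2.2 : ℝ) * (gl T x.2.1 x.2.2).card else 0) ≤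
      ((∑ e ∈ T, walks T (w ++ [2, 0, 1, 2]) e e : ℕ) : ℝ) := by
    rw [Fintype.sum_prod_type, sum_comm]
    simp only [ite_and]
    simp only [sum_ite_eq', mem_univ, if_true]
    rw [Fintype.sum_prod_type]
    have : ∀ e : Fin 3 → V, ∑ f : Fin 3 → V, (if e ∈ T then
        (walks T w e f : ℝ) * (gl T e f).card else 0) ≤
        if e ∈ T then ((walks T (w ++ [2, 0, 1, 2]) e e : ℕ) : ℝ) else 0 := by
      intro e
      split_ifs with he
      · rw [walks_append]
        push_cast
        apply sum_le_sum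
        intro f _
        have := gl_le (T := T) (f := f) he
        gcongr
      · simp
    refine (sum_le_sum fun e _ => this e).trans (le_of_eq ?_)
    rw [← sum_filter, filter_mem_eq_inter, univ_inter]
    push_cast
    rfl
  have m2 : ∑ x : (V × V) × (Fin 3 → V) × (Fin 3 → V),
      (if (x.1 = (x.2.2 1, x.2.2 2) ∧ x.2.2 2 ∈ gl T x.2.1 x.2.2) then
      (1 : ℝ) / (gl T x.2.1 x.2.2).card else 0) ≤ (Fintype.card V : ℝ) ^ 5 := by
    rw [Fintype.sum_prod_type, sum_comm]
    simp only [ite_and]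
    simp only [sum_ite_eq', mem_univ, if_true]
    rw [Fintype.sum_prod_type]
    have : ∀ e : Fin 3 → V, ∑ f : Fin 3 → V, (if f 2 ∈ gl T e f then
        (1 : ℝ) / (gl T e f).card else 0) ≤ (Fintype.card V : ℝ) ^ 2 := by
      intro e
      have h1 := sum_update 2 (fun f : Fin 3 → V => (if f 2 ∈ gl T e f then
        (1 : ℝ) / (gl T e f).card else 0))
      have h2 : ∑ f : Fin 3 → V, ∑ v : V, (if Function.update f 2 v 2 ∈
          gl T e (Function.update f 2 v) then
          (1 : ℝ) / (gl T e (Function.update f 2 v)).card else 0) ≤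
          ∑ _f : Fin 3 → V, (1 : ℝ) := by
        apply sum_le_sum
        intro f _
        simp only [gl_update, Function.update_self]
        rw [← sum_filter, sum_const, nsmul_eq_mul, filter_mem_eq_inter, univ_inter]
        by_cases h0 : (gl T e f).card = 0
        · rw [h0]; simp
        · apply le_of_eq
          field_simp
      rw [h1] at h2
      simp only [sum_const, card_univ, Fintype.card_pi_const, nsmul_eq_mul, mul_one] at h2
      push_cast at h2
      have h3 : (Fintype.card V : ℝ) * ∑ f : Fin 3 → V, (if f 2 ∈ gl T e f then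
        (1 : ℝ) / (gl T e f).card else 0) ≤ (Fintype.card V : ℝ) * (Fintype.card V : ℝ) ^ 2 := by
        calc _ ≤ _ := h2
          _ = _ := by ring
      exact le_of_mul_le_mul_left h3 hn
    refine (sum_le_sum fun e _ => this e).trans (le_of_eq ?_)
    rw [sum_const, card_univ, Fintype.card_pi_const, nsmul_eq_mul]
    push_cast
    ring
  -- the left-hand sides
  have l1 : En T w q + ∑ x : (V × V) × (Fin 3 → V) × (Fin 3 → V), q x.1 x.2.1 x.2.2 *
      Real.log (gl T x.2.1 x.2.2).card = ∑ x : (V × V) × (Fin 3 → V) × (Fin 3 → V),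
      q x.1 x.2.1 x.2.2 * Real.log ((if (x.1 = (x.2.2 1, x.2.2 2) ∧ x.2.1 ∈ T) then
      (walks T w x.2.1 x.2.2 : ℝ) * (gl T x.2.1 x.2.2).card else 0) / q x.1 x.2.1 x.2.2) := by
    have : En T w q = ∑ x : (V × V) × (Fin 3 → V) × (Fin 3 → V), q x.1 x.2.1 x.2.2 *
        Real.log ((walks T w x.2.1 x.2.2 : ℝ) / q x.1 x.2.1 x.2.2) := by
      unfold En
      refine Eq.trans ?_ (Fintype.sum_prod_type' (f := fun (a : V × V)
        (x : (Fin 3 → V) × (Fin 3 → V)) => q a x.1 x.2 *
        Real.log ((walks T w x.1 x.2 : ℝ) / q a x.1 x.2))).symm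
      apply sum_congr rfl
      intro a _
      exact (Fintype.sum_prod_type' (f := fun (e : Fin 3 → V) (g : Fin 3 → V) => q a e g *
        Real.log ((walks T w e g : ℝ) / q a e g))).symm
    rw [this, ← sum_add_distrib]
    apply sum_congr rfl
    intro x _
    by_cases h0 : q x.1 x.2.1 x.2.2 = 0
    · rw [h0]; simp
    · obtain ⟨h1, h2⟩ := hq _ _ _ h0
      have h3 := mu1_ne h2
      rw [if_pos ⟨Prod.ext h3.2.1.symm h3.2.2.symm, hL3.supp _ _ h1⟩]
      have h4 : ((gl T x.2.1 x.2.2).card : ℝ) ≠ 0 := by exact_mod_cast hgl _ _ _ h0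
      have h5 : (walks T w x.2.1 x.2.2 : ℝ) ≠ 0 := by exact_mod_cast c.supp _ _ _ h0
      rw [Real.log_div h5 h0, Real.log_div (mul_ne_zero h5 h4) h0, Real.log_mul h5 h4]
      ring
  have l2 : Hq q - ∑ x : (V × V) × (Fin 3 → V) × (Fin 3 → V), q x.1 x.2.1 x.2.2 *
      Real.log (gl T x.2.1 x.2.2).card = ∑ x : (V × V) × (Fin 3 → V) × (Fin 3 → V),
      q x.1 x.2.1 x.2.2 * Real.log ((if (x.1 = (x.2.2 1, x.2.2 2) ∧
      x.2.2 2 ∈ gl T x.2.1 x.2.2) then (1 : ℝ) / (gl T x.2.1 x.2.2).card else 0) /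
      q x.1 x.2.1 x.2.2) := by
    have : Hq q = ∑ x : (V × V) × (Fin 3 → V) × (Fin 3 → V), q x.1 x.2.1 x.2.2 *
        Real.log (1 / q x.1 x.2.1 x.2.2) := by
      unfold Hq
      refine Eq.trans ?_ (Fintype.sum_prod_type' (f := fun (a : V × V)
        (x : (Fin 3 → V) × (Fin 3 → V)) => q a x.1 x.2 *
        Real.log (1 / q a x.1 x.2))).symm
      apply sum_congr rfl
      intro a _
      exact (Fintype.sum_prod_type' (f := fun (e : Fin 3 → V) (g : Fin 3 → V) => q a e g *
        Real.log (1 / q a e g))).symm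
    rw [this, ← sum_sub_distrib]
    apply sum_congr rfl
    intro x _
    by_cases h0 : q x.1 x.2.1 x.2.2 = 0
    · rw [h0]; simp
    · obtain ⟨h1, h2⟩ := hq _ _ _ h0
      have h3 := mu1_ne h2
      rw [if_pos ⟨Prod.ext h3.2.1.symm h3.2.2.symm, gl_mem h1 h2⟩]
      have h4 : ((gl T x.2.1 x.2.2).card : ℝ) ≠ 0 := by exact_mod_cast hgl _ _ _ h0
      rw [Real.log_div one_ne_zero h0, Real.log_div (div_ne_zero one_ne_zero h4) h0,
        Real.log_div one_ne_zero h4]
      ring
  -- positivity of the masses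
  obtain ⟨x0, _, hx0⟩ := exists_ne_zero_of_sum_ne_zero (show
    ∑ x : (V × V) × (Fin 3 → V) × (Fin 3 → V), q x.1 x.2.1 x.2.2 ≠ 0 by rw [hsum]; norm_num)
  have p1 : 0 < ∑ x : (V × V) × (Fin 3 → V) × (Fin 3 → V),
      (if (x.1 = (x.2.2 1, x.2.2 2) ∧ x.2.1 ∈ T) then
      (walks T w x.2.1 x.2.2 : ℝ) * (gl T x.2.1 x.2.2).card else 0) := by
    apply sum_pos'
    · intro x _
      split_ifs <;> positivity
    · refine ⟨x0, mem_univ _, ?_⟩
      obtain ⟨h1, h2⟩ := hq _ _ _ hx0
      have h3 := mu1_ne h2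
      rw [if_pos ⟨Prod.ext h3.2.1.symm h3.2.2.symm, hL3.supp _ _ h1⟩]
      have h4 := Nat.pos_of_ne_zero (hgl _ _ _ hx0)
      have h5 := Nat.pos_of_ne_zero (c.supp _ _ _ hx0)
      positivity
  have p2 : 0 < ∑ x : (V × V) × (Fin 3 → V) × (Fin 3 → V),
      (if (x.1 = (x.2.2 1, x.2.2 2) ∧ x.2.2 2 ∈ gl T x.2.1 x.2.2) then
      (1 : ℝ) / (gl T x.2.1 x.2.2).card else 0) := by
    apply sum_pos'
    · intro x _
      split_ifs <;> positivity
    · refine ⟨x0, mem_univ _, ?_⟩
      obtain ⟨h1, h2⟩ := hq _ _ _ hx0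
      have h3 := mu1_ne h2
      rw [if_pos ⟨Prod.ext h3.2.1.symm h3.2.2.symm, gl_mem h1 h2⟩]
      have h4 := Nat.pos_of_ne_zero (hgl _ _ _ hx0)
      positivity
  have f1 := Real.log_le_log p1 m1
  have f2 := Real.log_le_log p2 m2
  rw [Real.log_pow] at f2
  push_cast at f2
  rw [← l1] at i1
  rw [← l2] at i2
  linarith

/-- The main inequality. -/
theorem t_MAIN : S_MAIN := by
  intro ℓ hℓ n T hT hsym
  obtain ⟨k, rfl⟩ : ∃ k, ℓ = k + 4 := ⟨ℓ - 4, by omega⟩
  have hTc : (0 : ℝ) < T.card := by exact_mod_cast hT.card_pos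
  obtain ⟨e0, he0⟩ := id hT
  haveI : Nonempty (Fin n) := ⟨e0 0⟩
  have hn : (0 : ℝ) < n := by exact_mod_cast Fin.pos (e0 0)
  set h := hh T 0 with hh0
  have hheq : ∀ j, hh T j = h := fun j => hh_symm hsym j 0
  have hL1 := mu1_law T
  have hL2 : Law T (fun a => ∑ e, mu1 T a e) (mu2 T) := hL1.Qr_law 1
  have hL3 : Law T (fun a => ∑ e, mu1 T a e) (mu3 T) := hL2.Qr_law 2
  have e1 := ent_mu1 hT
  have e2 := ent_mu2 hT
  have e3 := ent_mu3 hT
  rw [hheq] at e2
  rw [hheq, hheq] at e3
  have hcard : (Fintype.card (Fin n × Fin n) : ℝ) = (n : ℝ) ^ 2 := by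
    rw [Fintype.card_prod, Fintype.card_fin]; push_cast; ring
  have hB : ∀ j, ent (Qr T j (mu3 T)) ≤ 2 * Real.log n + Real.log T.card := by
    intro j
    have := (hL3.Qr_law j).ent_le hT
    rw [hcard, Real.log_pow] at this
    exact_mod_cast this
  set Λ := 2 * Real.log n - 2 * h with hΛ
  -- the block
  have b1 : Arc T [0, 1, 2] (mu3 T) (mu3 T) (3 * h - 3 * Λ) := by
    have := ((hL3.stay 0).comp (hL3.stay 1)).comp (hL3.stay 2)
    refine Arc.mono (S := _) this ?_
    rw [hheq, hheq, hheq]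
    have h0 := hB 0
    have h1 := hB 1
    have h2 := hB 2
    linarith
  have b2 := b1.toI (walks_le_one rfl)
  have b3 := updown hheq hT k (mu3 T) 2 hL3
  rw [hcard, Real.log_pow, show (2 : Fin 3) + 1 = 0 from rfl] at b3
  have b4 : Arc T [2] (mu3 T) (mu2 T) 0 := by
    refine (hL2.down 2).mono ?_
    change 0 ≤ hh T 2 - (ent (mu3 T) - ent (mu2 T))
    rw [hheq, e2, e3]
    linarith
  have b5 : Arc T [0] (mu2 T) (mu2 T) (Real.log T.card + h - 3 * Real.log n) := by
    refine (arc_step hL2 hL2 (j := 0) (fun _ _ => rfl)).mono ?_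
    have := pent_mu2 hT
    rw [Fintype.card_fin] at this
    rw [e2]
    linarith
  have b6 : Arc T [1] (mu2 T) (mu1 T) 0 := by
    refine (hL1.down 1).mono ?_
    change 0 ≤ hh T 1 - (ent (mu2 T) - ent (mu1 T))
    rw [hheq, e1, e2]
    linarith
  have b7 := b2.comp_left (((b3.comp b4).comp b5).comp b6)
  have b8 := closing hT b7
  have hword : [0, 1, 2] ++ (cw 0 (3 * k + 2) ++ [2] ++ [0] ++ [1]) ++ [2, 0, 1, 2] =
      cword (k + 4) := by
    have h1 : (0 : Fin 3) + 3 • (1 : Fin 3) = 0 := by decide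
    have h0 : (0 : Fin 3) + 2 = 2 := by decide
    have h2 : cw 0 3 = [0, 1, 2] := by decide
    have h3 : cw 2 7 = [2, 0, 1, 2, 0, 1, 2] := by decide
    have e1 : cword (k + 4) = cw 0 3 ++ (cw 0 (3 * k + 2) ++ cw 2 7) := by
      rw [cword_eq, show 3 * (k + 4) = 3 + ((3 * k + 2) + 7) from by ring,
        cw_add 3 (3 * k + 2 + 7) 0, h1, cw_add (3 * k + 2) 7 0, nsmul_two, h0]
    rw [e1, h2, h3]
    simp only [List.append_assoc, List.cons_append, List.nil_append]
  rw [hword, Fintype.card_fin, e1, e3] at b8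
  have hge := hh_ge hT 0
  rw [Fintype.card_fin] at hge
  have hle : Real.log T.card ≤ 3 * Real.log n := by
    have : (T.card : ℝ) ≤ (n : ℝ) ^ 3 := by
      have h1 : T.card ≤ n ^ 3 := by
        calc T.card ≤ (univ : Finset (Fin 3 → Fin n)).card := card_le_univ _
          _ = n ^ 3 := by simp
      exact_mod_cast h1
    have h2 := Real.log_le_log hTc this
    rwa [Real.log_pow] at h2
  -- numerics
  have hk : (0 : ℝ) ≤ k := Nat.cast_nonneg _
  have fin1 : (3 * ((k + 4 : ℕ) : ℝ) + 20) * (Real.log T.card - 3 * Real.log n) +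
      3 * ((k + 4 : ℕ) : ℝ) * Real.log n ≤
      Real.log ((∑ e ∈ T, walks T (cword (k + 4)) e e : ℕ) : ℝ) := by
    refine le_trans ?_ b8
    push_cast
    have h1 : (3 * (k : ℝ) + 27) * (Real.log T.card - 2 * Real.log n) ≤ (3 * (k : ℝ) + 27) * h :=
      mul_le_mul_of_nonneg_left hge (by positivity)
    rw [hΛ]
    nlinarith [h1]
  have hN0 : 0 < ((∑ e ∈ T, walks T (cword (k + 4)) e e : ℕ) : ℝ) := by
    by_contra h0
    have h1 : ((∑ e ∈ T, walks T (cword (k + 4)) e e : ℕ) : ℝ) = 0 :=
      le_antisymm (not_lt.1 h0) (Nat.cast_nonneg _)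
    -- the constant walk shows positivity
    have h2 : 0 < ∑ e ∈ T, walks T (cword (k + 4)) e e := by
      have hpos : ∀ (w : List (Fin 3)), 0 < walks T w e0 e0 := by
        intro w
        induction w with
        | nil => simp [walks]
        | cons j w ih =>
          have := walks_step (T := T) (j := j) (w := w) (e := e0) (g := e0) (e0 j)
            (by simpa using he0)
          rw [Function.update_eq_self] at this
          exact lt_of_lt_of_le ih this
      exact lt_of_lt_of_le (hpos _) (single_le_sum (f := fun e => walks T (cword (k + 4)) e e)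
        (fun _ _ => Nat.zero_le _) he0)
    have h3 : (∑ e ∈ T, walks T (cword (k + 4)) e e : ℕ) = 0 := by exact_mod_cast h1
    omega
  rw [← Real.log_le_log_iff (by positivity) hN0]
  refine le_trans (le_of_eq ?_) fin1
  rw [Real.log_mul (by positivity) (by positivity), Real.log_pow, Real.log_pow,
    Real.log_div hTc.ne' (by positivity), Real.log_pow]
  push_cast
  ring

end Q112.TS
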