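import Pool.Agent.Q112.Sid.Defs

/-!
# The Sidorenko exponent of the 3-uniform tight cycles: definitions
-/

namespace Q112.TS

open Finset Q112.Sid

/-- The edge `{i, i+1, i+2}` (indices modulo `3 ℓ`) of the tight cycle. -/
def cycEdge (ℓ : ℕ) (i : Fin (3 * ℓ)) : Finset (Fin (3 * ℓ)) :=
  (univ : Finset (Fin 3)).image fun j : Fin 3 =>
    ⟨((i : ℕ) + (j : ℕ)) % (3 * ℓ), Nat.mod_lt _ (lt_of_le_of_lt (Nat.zero_le _) i.2)⟩

lemma mem_cycEdge {ℓ : ℕ} {i w : Fin (3 * ℓ)} :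
    w ∈ cycEdge ℓ i ↔ ∃ j : Fin 3, (w : ℕ) = ((i : ℕ) + (j : ℕ)) % (3 * ℓ) := by
  unfold cycEdge
  rw [mem_image]
  constructor
  · rintro ⟨j, _, rfl⟩
    exact ⟨j, rfl⟩
  · rintro ⟨j, hj⟩
    exact ⟨j, mem_univ _, Fin.ext hj.symm⟩

lemma cycEdge_card (ℓ : ℕ) (hℓ : 1 ≤ ℓ) (i : Fin (3 * ℓ)) : (cycEdge ℓ i).card = 3 := by
  unfold cycEdge
  rw [card_image_of_injective, card_univ, Fintype.card_fin]
  intro a b h
  rw [Fin.mk.injEq] at h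
  have h1 : (a : ℕ) ≡ b [MOD 3 * ℓ] := Nat.ModEq.add_left_cancel' (i : ℕ) h
  have h2 := Nat.ModEq.eq_of_lt_of_lt h1 (by have := a.2; omega) (by have := b.2; omega)
  exact Fin.ext h2

/-- The tight cycle `C_{3ℓ}^{(3)}`: vertex set `ℤ/3ℓℤ` (realised as `Fin (3 ℓ)`), edges
`{i, i+1, i+2}` for all `i`. -/
def tightCycle (ℓ : ℕ) (hℓ : 1 ≤ ℓ) : RGraph 3 where
  n := 3 * ℓ
  edges := univ.image (cycEdge ℓ)
  uniform := by
    intro e he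
    rw [mem_image] at he
    obtain ⟨i, _, rfl⟩ := he
    exact cycEdge_card ℓ hℓ i

/-- The ordered triples of vertices forming an edge of `H`. -/
def tup (H : RGraph 3) : Finset (Fin 3 → Fin H.n) := univ.filter fun g => univ.image g ∈ H.edges

/-- The number of walks with word `w` from the triple `e` to the triple `e'`: a step with letter
`j` replaces the coordinate `j` of the current triple, staying inside `T`. -/
def walks {V : Type} [Fintype V] [DecidableEq V] (T : Finset (Fin 3 → V)) :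
    List (Fin 3) → (Fin 3 → V) → (Fin 3 → V) → ℕ
  | [], e, e' => if e = e' then 1 else 0
  | j :: w, e, e' => ∑ v : V, if Function.update e j v ∈ T then
      walks T w (Function.update e j v) e' else 0

/-- The cyclic word `0 1 2 0 1 2 ... 0 1 2` of length `3 ℓ`. -/
def cword (ℓ : ℕ) : List (Fin 3) := (List.replicate ℓ [0, 1, 2]).flatten

/-- JOB HOM. Closed walks with word `(0 1 2)^ℓ` give homomorphisms of the tight cycle. -/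
def S_HOM : Prop := ∀ (ℓ : ℕ) (hℓ : 1 ≤ ℓ) (H : RGraph 3),
  ∑ e ∈ tup H, walks (tup H) (cword ℓ) e e ≤ (homs (tightCycle ℓ hℓ) H).card

/-- JOB LOW. The lower bound `s(C_{3ℓ}) ≥ 3 ℓ - 2`. -/
def S_LOW : Prop := ∀ (ℓ : ℕ) (hℓ : 1 ≤ ℓ),
  (((3 * ℓ - 2 : ℝ)) : EReal) ≤ sidExp (tightCycle ℓ hℓ)

/-- The main inequality (proved by helper112). -/
def S_MAIN : Prop := ∀ (ℓ : ℕ), 4 ≤ ℓ → ∀ (n : ℕ) (T : Finset (Fin 3 → Fin n)), T.Nonempty →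
  (∀ (σ : Equiv.Perm (Fin 3)) (e : Fin 3 → Fin n), e ∈ T → e ∘ σ ∈ T) →
  ((T.card : ℝ) / (n : ℝ) ^ 3) ^ (3 * ℓ + 20) * (n : ℝ) ^ (3 * ℓ) ≤
    ((∑ e ∈ T, walks T (cword ℓ) e e : ℕ) : ℝ)

/-- JOB ASM. The two-sided bound and the limit. -/
def S_ASM : Prop := S_HOM → S_LOW → S_MAIN →
  (∀ (ℓ : ℕ) (hℓ : 4 ≤ ℓ), (((3 * ℓ - 2 : ℝ)) : EReal) ≤ sidExp (tightCycle ℓ (by omega)) ∧
    sidExp (tightCycle ℓ (by omega)) ≤ (((3 * ℓ + 20 : ℝ)) : EReal)) ∧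
  ∀ ε : ℝ, 0 < ε → ∃ ℓ₀ : ℕ, ∀ (ℓ : ℕ) (hℓ : 1 ≤ ℓ), ℓ₀ ≤ ℓ →
    |(sidExp (tightCycle ℓ hℓ)).toReal / ℓ - 3| < ε

end Q112.TS
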