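import Pool.Agent.Q112.TS.UD

/-!
# The main inequality
-/

namespace Q112.TS

open Finset

variable {V : Type} [Fintype V] [DecidableEq V] {T : Finset (Fin 3 → V)}

/-- The first family of laws: `a` is the pair of the coordinates `1`, `2`. -/
noncomputable def mu1 (T : Finset (Fin 3 → V)) (a : V × V) (e : Fin 3 → V) : ℝ :=
  if e ∈ T ∧ e 1 = a.1 ∧ e 2 = a.2 then 1 / T.card else 0

/-- The second family of laws. -/
noncomputable def mu2 (T : Finset (Fin 3 → V)) : V × V → (Fin 3 → V) → ℝ := Qr T 1 (mu1 T)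

/-- The third family of laws. -/
noncomputable def mu3 (T : Finset (Fin 3 → V)) : V × V → (Fin 3 → V) → ℝ := Qr T 2 (mu2 T)

lemma mu1_law (T : Finset (Fin 3 → V)) : Law T (fun a => ∑ e, mu1 T a e) (mu1 T) where
  nonneg a e := by unfold mu1; split_ifs <;> positivity
  supp a e h := by
    unfold mu1 at h
    split_ifs at h with h1
    · exact h1.1
    · exact absurd rfl h
  marg a := rfl
  unif e he := by
    rw [Fintype.sum_eq_single (e 1, e 2)]
    · simp [mu1, he]
    · intro a ha
      unfold mu1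
      rw [if_neg]
      rintro ⟨_, h1, h2⟩
      exact ha (Prod.ext h1.symm h2.symm)

lemma mu1_ne {a : V × V} {e : Fin 3 → V} (h : mu1 T a e ≠ 0) : e ∈ T ∧ e 1 = a.1 ∧ e 2 = a.2 := by
  unfold mu1 at h
  split_ifs at h with h1
  · exact h1
  · exact absurd rfl h

lemma mu2_ne {a : V × V} {e : Fin 3 → V} (h : mu2 T a e ≠ 0) :
    e ∈ T ∧ e 2 = a.2 ∧ Function.update e 1 a.1 ∈ T := by
  have h1 : e ∈ T := ((mu1_law T).Qr_law 1).supp a e h
  unfold mu2 Qr at h
  rw [if_pos h1] at h
  have h2 : pm 1 (mu1 T) a e ≠ 0 := fun h' => h (by rw [h']; simp)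
  obtain ⟨v, _, hv⟩ := exists_ne_zero_of_sum_ne_zero h2
  obtain ⟨h3, h4, h5⟩ := mu1_ne hv
  simp at h4 h5
  subst h4
  exact ⟨h1, h5, h3⟩

lemma mu3_ne {a : V × V} {e : Fin 3 → V} (h : mu3 T a e ≠ 0) :
    e ∈ T ∧ Function.update e 2 a.2 ∈ T ∧
      Function.update (Function.update e 2 a.2) 1 a.1 ∈ T := by
  have h1 : e ∈ T := (((mu1_law T).Qr_law 1).Qr_law 2).supp a e h
  unfold mu3 Qr at h
  rw [if_pos h1] at h
  have h2 : pm 2 (mu2 T) a e ≠ 0 := fun h' => h (by rw [h']; simp)
  obtain ⟨v, _, hv⟩ := exists_ne_zero_of_sum_ne_zero h2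
  obtain ⟨h3, h4, h5⟩ := mu2_ne hv
  simp at h4
  subst h4
  exact ⟨h1, h3, h5⟩

lemma ent_mu1 (hT : T.Nonempty) : ent (mu1 T) = Real.log T.card := by
  have hTc : (0 : ℝ) < T.card := by exact_mod_cast hT.card_pos
  unfold ent
  rw [sum_comm, ← sum_subset (subset_univ T)]
  · have h1 : ∀ e ∈ T, ∑ a, Real.negMulLog (mu1 T a e) = Real.negMulLog (1 / T.card) := by
      intro e he
      rw [Fintype.sum_eq_single (e 1, e 2)]
      · simp [mu1, he]
      · intro a ha
        have : mu1 T a e = 0 := by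
          unfold mu1
          rw [if_neg]
          rintro ⟨_, h1, h2⟩
          exact ha (Prod.ext h1.symm h2.symm)
        rw [this]; simp
    rw [sum_congr rfl h1, sum_const, nsmul_eq_mul]
    unfold Real.negMulLog
    rw [Real.log_div one_ne_zero hTc.ne', Real.log_one]
    field_simp
    ring
  · intro e _ he
    apply sum_eq_zero
    intro a _
    have : mu1 T a e = 0 := by
      unfold mu1
      rw [if_neg (fun h => he h.1)]
    rw [this]; simp

lemma pent_eq_ent {A : Type} [Fintype A] {μ : A → (Fin 3 → V) → ℝ} {j : Fin 3} (c : A → V)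
    (hc : ∀ a e, μ a e ≠ 0 → e j = c a) : pent j μ = ent μ := by
  rw [ent_eq]
  unfold pent
  congr 1
  apply sum_congr rfl
  intro a _
  apply sum_congr rfl
  intro e _
  by_cases h0 : μ a e = 0
  · rw [h0]; simp
  · congr 2
    unfold pm
    rw [Fintype.sum_eq_single (e j)]
    · simp
    · intro v hv
      by_contra h1
      have h2 := hc a _ h1
      simp at h2
      exact hv (h2.trans (hc a e h0).symm)

lemma ent_mu2 (hT : T.Nonempty) : ent (mu2 T) = Real.log T.card + hh T 1 := by
  unfold mu2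
  rw [(mu1_law T).ent_Qr 1, pent_eq_ent (fun a => a.1) (fun a e h => (mu1_ne h).2.1), ent_mu1 hT]

lemma ent_mu3 (hT : T.Nonempty) : ent (mu3 T) = Real.log T.card + hh T 1 + hh T 2 := by
  have h2 : Law T _ (mu2 T) := (mu1_law T).Qr_law 1
  unfold mu3
  rw [h2.ent_Qr 2, pent_eq_ent (fun a => a.2) (fun a e h => (mu2_ne h).2.1), ent_mu2 hT]

/-- Symmetry of the average codegree. -/
lemma hh_symm (hsym : ∀ (σ : Equiv.Perm (Fin 3)) (e : Fin 3 → V), e ∈ T → e ∘ σ ∈ T)
    (i j : Fin 3) : hh T i = hh T j := by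
  unfold hh
  congr 1
  set σ : Equiv.Perm (Fin 3) := Equiv.swap i j with hσ
  have hmem : ∀ e, e ∘ σ ∈ T ↔ e ∈ T := by
    intro e
    refine ⟨fun h => ?_, fun h => hsym σ e h⟩
    have := hsym σ _ h
    have h2 : (e ∘ σ) ∘ σ = e := by
      funext k
      simp [hσ]
    rwa [h2] at this
  refine sum_bij (fun e _ => e ∘ σ) ?_ ?_ ?_ ?_
  · intro e he
    exact (hmem e).2 he
  · intro e _ e' _ h
    funext k
    have := congrFun h (σ.symm k)
    simpa using this
  · intro e he
    refine ⟨e ∘ σ, (hmem e).2 he, ?_⟩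
    funext k
    simp [hσ]
  · intro e _
    congr 2
    unfold cod
    congr 1
    ext v
    simp only [mem_filter, mem_univ, true_and]
    rw [← hmem (Function.update e i v)]
    have : Function.update e i v ∘ σ = Function.update (e ∘ σ) j v := by
      funext k
      simp only [Function.comp, Function.update_apply]
      have : σ k = i ↔ k = j := by
        rw [hσ, Equiv.swap_apply_eq_iff]
        simp
      simp [this]
    rw [this]

lemma hh_ge (hT : T.Nonempty) (j : Fin 3) :
    Real.log T.card - 2 * Real.log (Fintype.card V) ≤ hh T j := by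
  classical
  have hTc : (0 : ℝ) < T.card := by exact_mod_cast hT.card_pos
  obtain ⟨e0, he0⟩ := hT
  haveI : Nonempty V := ⟨e0 0⟩
  have hn : (0 : ℝ) < Fintype.card V := by exact_mod_cast Fintype.card_pos
  have h1 := logsum T (fun _ => 1 / (T.card : ℝ)) (fun e => 1 / (T.card * cod T j e : ℝ))
    (fun _ _ => by positivity) (fun _ _ => by positivity)
    (fun e he _ => by
      have hc : (0 : ℝ) < cod T j e := by exact_mod_cast cod_pos he j
      positivity)
  have hs : ∑ _e ∈ T, (1 / (T.card : ℝ)) = 1 := by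
    rw [sum_const, nsmul_eq_mul]; field_simp
  rw [hs, one_mul, div_one] at h1
  have h2 : ∑ e ∈ T, 1 / (T.card : ℝ) * Real.log (1 / (T.card * cod T j e : ℝ) / (1 / T.card)) =
      - hh T j := by
    unfold hh
    rw [sum_div, ← sum_neg_distrib]
    apply sum_congr rfl
    intro e he
    have hc : (0 : ℝ) < cod T j e := by exact_mod_cast cod_pos he j
    have : 1 / ((T.card : ℝ) * cod T j e) / (1 / T.card) = (cod T j e : ℝ)⁻¹ := by
      field_simp
    rw [this, Real.log_inv]
    ring
  rw [h2] at h1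
  have h3 : ∑ e ∈ T, 1 / (T.card * cod T j e : ℝ) ≤ (Fintype.card V : ℝ) ^ 2 / T.card := by
    have h4 := sum_update j (fun e : Fin 3 → V => if e ∈ T then 1 / (T.card * cod T j e : ℝ) else 0)
    have h5 : ∑ e : Fin 3 → V, ∑ v : V, (if Function.update e j v ∈ T then
        1 / (T.card * cod T j (Function.update e j v) : ℝ) else 0) ≤
        ∑ _e : Fin 3 → V, 1 / (T.card : ℝ) := by
      apply sum_le_sum
      intro e _
      simp only [cod_update]
      rw [← sum_filter, sum_const, nsmul_eq_mul]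
      change (cod T j e : ℝ) * (1 / (T.card * cod T j e)) ≤ 1 / T.card
      by_cases hc : cod T j e = 0
      · rw [hc]; simp
      · apply le_of_eq
        field_simp
    rw [h4, ← sum_filter] at h5
    simp only [sum_const, card_univ, Fintype.card_pi_const, nsmul_eq_mul] at h5
    rw [filter_mem_eq_inter, univ_inter] at h5
    push_cast at h5
    rw [le_div_iff₀ hTc]
    have h6 : (Fintype.card V : ℝ) * ((∑ e ∈ T, 1 / (T.card * cod T j e : ℝ)) * T.card) ≤
        (Fintype.card V : ℝ) * (Fintype.card V : ℝ) ^ 2 := by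
      calc (Fintype.card V : ℝ) * ((∑ e ∈ T, 1 / (T.card * cod T j e : ℝ)) * T.card)
          = ((Fintype.card V : ℝ) * ∑ e ∈ T, 1 / (T.card * cod T j e : ℝ)) * T.card := by ring
        _ ≤ ((Fintype.card V : ℝ) ^ 3 * (1 / T.card)) * T.card := by gcongr
        _ = (Fintype.card V : ℝ) * (Fintype.card V : ℝ) ^ 2 := by field_simp
    exact le_of_mul_le_mul_left h6 hn
  have h7 : 0 < ∑ e ∈ T, 1 / (T.card * cod T j e : ℝ) := by
    apply sum_pos
    · intro e he
      have hc : (0 : ℝ) < cod T j e := by exact_mod_cast cod_pos he j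
      positivity
    · exact ⟨e0, he0⟩
  have h8 := Real.log_le_log h7 h3
  rw [Real.log_div (by positivity) hTc.ne', Real.log_pow] at h8
  push_cast at h8
  linarith

lemma pent_mu2 (hT : T.Nonempty) : pent 0 (mu2 T) ≤ 3 * Real.log (Fintype.card V) := by
  classical
  have hTc : (0 : ℝ) < T.card := by exact_mod_cast hT.card_pos
  obtain ⟨e0, he0⟩ := hT
  haveI : Nonempty V := ⟨e0 0⟩
  have hn : (0 : ℝ) < Fintype.card V := by exact_mod_cast Fintype.card_pos
  have hL : Law T (fun a => ∑ e, mu1 T a e) (mu2 T) := (mu1_law T).Qr_law 1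
  have hsum : ∑ x : (V × V) × (Fin 3 → V), mu2 T x.1 x.2 = 1 := by
    rw [Fintype.sum_prod_type, sum_comm, ← sum_subset (subset_univ T)]
    · rw [sum_congr rfl hL.unif, sum_const, nsmul_eq_mul]
      field_simp
    · intro e _ he
      apply sum_eq_zero
      intro a _
      by_contra h0
      exact he (hL.supp a e h0)
  have h1 := logsum (univ : Finset ((V × V) × (Fin 3 → V))) (fun x => mu2 T x.1 x.2)
    (fun x => mu2 T x.1 x.2 / pm 0 (mu2 T) x.1 x.2) (fun x _ => hL.nonneg _ _)
    (fun x _ => div_nonneg (hL.nonneg _ _) (hL.pm_nonneg _ _ _))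
    (fun x _ h0 => div_ne_zero h0 (hL.pm_ne_zero 0 h0))
  rw [hsum, one_mul, div_one] at h1
  have h2 : pent 0 (mu2 T) = ∑ x : (V × V) × (Fin 3 → V), mu2 T x.1 x.2 *
      Real.log (mu2 T x.1 x.2 / pm 0 (mu2 T) x.1 x.2 / mu2 T x.1 x.2) := by
    unfold pent
    rw [Fintype.sum_prod_type' (f := fun (a : V × V) (e : Fin 3 → V) => mu2 T a e *
      Real.log (mu2 T a e / pm 0 (mu2 T) a e / mu2 T a e)), ← sum_neg_distrib]
    apply sum_congr rfl
    intro a _
    rw [← sum_neg_distrib]
    apply sum_congr rfl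
    intro e _
    by_cases h0 : mu2 T a e = 0
    · rw [h0]; simp
    · have h3 := hL.pm_ne_zero 0 h0
      have : mu2 T a e / pm 0 (mu2 T) a e / mu2 T a e = (pm 0 (mu2 T) a e)⁻¹ := by
        field_simp
      simp only [this, Real.log_inv]
      ring
  rw [← h2] at h1
  refine h1.trans ?_
  have h3 : ∑ x : (V × V) × (Fin 3 → V), mu2 T x.1 x.2 / pm 0 (mu2 T) x.1 x.2 ≤
      (Fintype.card V : ℝ) ^ 3 := by
    rw [Fintype.sum_prod_type]
    have h4 : ∀ a : V × V, (Fintype.card V : ℝ) * ∑ e, mu2 T a e / pm 0 (mu2 T) a e ≤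
        ∑ e : Fin 3 → V, if e 2 = a.2 then (1 : ℝ) else 0 := by
      intro a
      rw [← sum_update 0 (fun e => mu2 T a e / pm 0 (mu2 T) a e)]
      apply sum_le_sum
      intro e _
      simp only [pm_update]
      rw [← sum_div]
      change pm 0 (mu2 T) a e / pm 0 (mu2 T) a e ≤ _
      by_cases h5 : pm 0 (mu2 T) a e = 0
      · rw [h5]; simp; split_ifs <;> norm_num
      · rw [div_self h5]
        obtain ⟨v, _, hv⟩ := exists_ne_zero_of_sum_ne_zero h5
        have h6 := (mu2_ne hv).2.1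
        simp at h6
        rw [if_pos h6]
    have h5 : ∑ a : V × V, ∑ e : Fin 3 → V, (if e 2 = a.2 then (1 : ℝ) else 0) =
        (Fintype.card V : ℝ) * (Fintype.card V : ℝ) ^ 3 := by
      rw [sum_comm]
      have : ∀ e : Fin 3 → V, ∑ a : V × V, (if e 2 = a.2 then (1 : ℝ) else 0) =
          Fintype.card V := by
        intro e
        rw [Fintype.sum_prod_type]
        simp
      rw [sum_congr rfl fun e _ => this e, sum_const, card_univ, nsmul_eq_mul,
        Fintype.card_pi_const]
      push_cast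
      ring
    have h6 : (Fintype.card V : ℝ) * ∑ a : V × V, ∑ e, mu2 T a e / pm 0 (mu2 T) a e ≤
        (Fintype.card V : ℝ) * (Fintype.card V : ℝ) ^ 3 := by
      rw [mul_sum, ← h5]
      exact sum_le_sum fun a _ => h4 a
    exact le_of_mul_le_mul_left h6 hn
  have h4 : 0 < ∑ x : (V × V) × (Fin 3 → V), mu2 T x.1 x.2 / pm 0 (mu2 T) x.1 x.2 := by
    apply sum_pos'
    · intro x _
      exact div_nonneg (hL.nonneg _ _) (hL.pm_nonneg _ _ _)
    · obtain ⟨x, _, hx⟩ := exists_ne_zero_of_sum_ne_zero (show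
        ∑ x : (V × V) × (Fin 3 → V), mu2 T x.1 x.2 ≠ 0 by rw [hsum]; norm_num)
      refine ⟨x, mem_univ _, ?_⟩
      exact div_pos (lt_of_le_of_ne (hL.nonneg _ _) hx.symm)
        (lt_of_le_of_ne (hL.pm_nonneg _ _ _) (hL.pm_ne_zero 0 hx).symm)
  have h5 := Real.log_le_log h4 h3
  rw [Real.log_pow] at h5
  exact_mod_cast h5

end Q112.TS
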