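import Pool.Agent.Q112.TS.Arc

/-!
# Resampling one coordinate
-/

namespace Q112.TS

open Finset

variable {V A : Type} [Fintype V] [DecidableEq V] [Fintype A]

/-- Averaging over one coordinate. -/
lemma sum_update (j : Fin 3) (g : (Fin 3 → V) → ℝ) :
    ∑ e : Fin 3 → V, ∑ v : V, g (Function.update e j v) = (Fintype.card V : ℝ) * ∑ e, g e := by
  have h1 : ∑ e : Fin 3 → V, ∑ v : V, g (Function.update e j v) =
      ∑ x : (Fin 3 → V) × V, g (Function.update x.1 j x.2) := by
    rw [Fintype.sum_prod_type]
  have h2 : ∑ x : (Fin 3 → V) × V, g (Function.update x.1 j x.2) =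
      ∑ x : (Fin 3 → V) × V, g x.1 := by
    refine Fintype.sum_bijective (fun x : (Fin 3 → V) × V => (Function.update x.1 j x.2, x.1 j))
      ?_ _ _ (fun x => rfl)
    apply Function.Involutive.bijective
    intro x
    ext <;> simp
  rw [h1, h2, Fintype.sum_prod_type]
  simp only [sum_const, card_univ, nsmul_eq_mul]
  rw [mul_sum]

/-- Sum over the triples agreeing with `e` off the coordinate `j`. -/
lemma sum_line (j : Fin 3) (e : Fin 3 → V) (g : (Fin 3 → V) → ℝ) :
    ∑ e' : Fin 3 → V, (if e' = Function.update e j (e' j) then g e' else 0) =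
      ∑ v : V, g (Function.update e j v) := by
  rw [← sum_filter]
  symm
  refine sum_bij (fun v _ => Function.update e j v) ?_ ?_ ?_ ?_
  · intro v _
    simp
  · intro v _ v' _ h
    have := congrFun h j
    simpa using this
  · intro e' he'
    rw [mem_filter] at he'
    exact ⟨e' j, mem_univ _, he'.2.symm⟩
  · intro v _
    rfl

lemma line_symm (j : Fin 3) (e e' : Fin 3 → V) :
    e' = Function.update e j (e' j) ↔ e = Function.update e' j (e j) := by
  constructor
  · intro h
    rw [h]; simp
  · intro h
    rw [h]; simp

/-- The mass of a panel. -/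
def pm (j : Fin 3) (μ : A → (Fin 3 → V) → ℝ) (a : A) (e : Fin 3 → V) : ℝ :=
  ∑ v, μ a (Function.update e j v)

lemma pm_update (j : Fin 3) (μ : A → (Fin 3 → V) → ℝ) (a : A) (e : Fin 3 → V) (v : V) :
    pm j μ a (Function.update e j v) = pm j μ a e := by
  simp [pm]

/-- The number of triples of `T` in a panel. -/
def cod (T : Finset (Fin 3 → V)) (j : Fin 3) (e : Fin 3 → V) : ℕ :=
  (univ.filter fun v => Function.update e j v ∈ T).card

lemma cod_update (T : Finset (Fin 3 → V)) (j : Fin 3) (e : Fin 3 → V) (v : V) :
    cod T j (Function.update e j v) = cod T j e := by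
  simp [cod]

lemma cod_pos {T : Finset (Fin 3 → V)} {e : Fin 3 → V} (he : e ∈ T) (j : Fin 3) :
    0 < cod T j e := by
  apply card_pos.2
  exact ⟨e j, by simpa using he⟩

open Classical in
/-- Resampling the coordinate `j` uniformly. -/
noncomputable def Qr (T : Finset (Fin 3 → V)) (j : Fin 3) (μ : A → (Fin 3 → V) → ℝ) (a : A)
    (e : Fin 3 → V) : ℝ := if e ∈ T then pm j μ a e / cod T j e else 0

/-- The entropy of the panel. -/
noncomputable def pent (j : Fin 3) (μ : A → (Fin 3 → V) → ℝ) : ℝ :=
  - ∑ a, ∑ e, μ a e * Real.log (pm j μ a e)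

/-- A family of laws on `T` with uniform average. -/
structure Law (T : Finset (Fin 3 → V)) (p : A → ℝ) (μ : A → (Fin 3 → V) → ℝ) : Prop where
  nonneg : ∀ a e, 0 ≤ μ a e
  supp : ∀ a e, μ a e ≠ 0 → e ∈ T
  marg : ∀ a, ∑ e, μ a e = p a
  unif : ∀ e ∈ T, ∑ a, μ a e = 1 / T.card

variable {T : Finset (Fin 3 → V)} {p : A → ℝ} {μ ν : A → (Fin 3 → V) → ℝ} {j : Fin 3}

lemma Law.pm_nonneg (h : Law T p μ) (j : Fin 3) (a : A) (e : Fin 3 → V) : 0 ≤ pm j μ a e :=
  sum_nonneg fun _ _ => h.nonneg _ _

lemma Law.le_pm (h : Law T p μ) (j : Fin 3) (a : A) (e : Fin 3 → V) : μ a e ≤ pm j μ a e := by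
  have := single_le_sum (f := fun v => μ a (Function.update e j v))
    (fun v _ => h.nonneg a _) (mem_univ (e j))
  simpa [pm] using this

lemma Law.pm_ne_zero (h : Law T p μ) (j : Fin 3) {a : A} {e : Fin 3 → V} (h0 : μ a e ≠ 0) :
    pm j μ a e ≠ 0 := by
  have := lt_of_le_of_ne (h.nonneg a e) (Ne.symm h0)
  exact (lt_of_lt_of_le this (h.le_pm j a e)).ne'

/-- Resampling does not change integrals of functions of the panel. -/
lemma Law.sum_Qr (h : Law T p μ) (j : Fin 3) (a : A) (g : (Fin 3 → V) → ℝ)
    (hg : ∀ e v, g (Function.update e j v) = g e) :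
    ∑ e, Qr T j μ a e * g e = ∑ e, μ a e * g e := by
  classical
  rcases isEmpty_or_nonempty V with hV | hV
  · haveI : IsEmpty (Fin 3 → V) := ⟨fun f => hV.elim (f 0)⟩
    simp
  have hn : (0 : ℝ) < Fintype.card V := by exact_mod_cast Fintype.card_pos
  have h1 := sum_update j (fun e => Qr T j μ a e * g e)
  have h2 := sum_update j (fun e => μ a e * g e)
  have h3 : ∑ e : Fin 3 → V, ∑ v : V, Qr T j μ a (Function.update e j v) *
      g (Function.update e j v) = ∑ e : Fin 3 → V, ∑ v : V, μ a (Function.update e j v) *
      g (Function.update e j v) := by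
    apply sum_congr rfl
    intro e _
    simp only [hg, ← sum_mul]
    congr 1
    unfold Qr
    simp only [pm_update, cod_update]
    rw [← sum_filter, sum_const, nsmul_eq_mul]
    change (cod T j e : ℝ) * (pm j μ a e / cod T j e) = pm j μ a e
    by_cases hc : cod T j e = 0
    · have : pm j μ a e = 0 := by
        unfold pm
        apply sum_eq_zero
        intro v _
        by_contra h0
        have h4 := h.supp a _ h0
        have : 0 < cod T j e := card_pos.2 ⟨v, by simpa using h4⟩
        omega
      rw [this]; simp
    · field_simp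
  rw [h1, h2] at h3
  exact mul_left_cancel₀ hn.ne' h3

lemma Law.pm_Qr (h : Law T p μ) (j : Fin 3) (a : A) (e : Fin 3 → V) :
    pm j (Qr T j μ) a e = pm j μ a e := by
  classical
  unfold pm
  simp only [Qr, cod_update, pm_update]
  rw [← sum_filter, sum_const, nsmul_eq_mul]
  change (cod T j e : ℝ) * (pm j μ a e / cod T j e) = pm j μ a e
  by_cases hc : cod T j e = 0
  · have : pm j μ a e = 0 := by
      unfold pm
      apply sum_eq_zero
      intro v _
      by_contra h0
      have h4 := h.supp a _ h0
      have : 0 < cod T j e := card_pos.2 ⟨v, by simpa using h4⟩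
      omega
    rw [this]; simp
  · field_simp

lemma Law.Qr_law (h : Law T p μ) (j : Fin 3) : Law T p (Qr T j μ) where
  nonneg a e := by
    unfold Qr
    split_ifs
    · exact div_nonneg (h.pm_nonneg j a e) (Nat.cast_nonneg _)
    · exact le_rfl
  supp a e h0 := by
    unfold Qr at h0
    by_contra h1
    rw [if_neg h1] at h0
    exact h0 rfl
  marg a := by
    have := h.sum_Qr j a (fun _ => 1) (fun _ _ => rfl)
    simp only [mul_one] at this
    rw [this, h.marg]
  unif e he := by
    classical
    have hc : (cod T j e : ℝ) ≠ 0 := by exact_mod_cast (cod_pos he j).ne'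
    simp only [Qr, if_pos he]
    rw [← sum_div]
    unfold pm
    rw [sum_comm]
    have h1 : ∀ v : V, ∑ a, μ a (Function.update e j v) =
        if Function.update e j v ∈ T then 1 / (T.card : ℝ) else 0 := by
      intro v
      split_ifs with h2
      · exact h.unif _ h2
      · apply sum_eq_zero
        intro a _
        by_contra h3
        exact h2 (h.supp a _ h3)
    rw [sum_congr rfl fun v _ => h1 v, ← sum_filter, sum_const, nsmul_eq_mul]
    change (cod T j e : ℝ) * (1 / (T.card : ℝ)) / cod T j e = 1 / T.card
    field_simp

/-- The average logarithm of the codegree. -/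
noncomputable def hh (T : Finset (Fin 3 → V)) (j : Fin 3) : ℝ :=
  (∑ e ∈ T, Real.log (cod T j e)) / T.card

lemma Law.ent_Qr (h : Law T p μ) (j : Fin 3) : ent (Qr T j μ) = pent j μ + hh T j := by
  classical
  have hQ := h.Qr_law j
  rw [ent_eq]
  have h1 : ∑ a, ∑ e, Qr T j μ a e * Real.log (Qr T j μ a e) =
      ∑ a, ∑ e, Qr T j μ a e * Real.log (pm j μ a e) -
      ∑ a, ∑ e, Qr T j μ a e * Real.log (cod T j e) := by
    rw [← sum_sub_distrib]
    apply sum_congr rfl
    intro a _
    rw [← sum_sub_distrib]
    apply sum_congr rfl
    intro e _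
    by_cases h0 : Qr T j μ a e = 0
    · rw [h0]; simp
    · have he : e ∈ T := hQ.supp a e h0
      have hc : (cod T j e : ℝ) ≠ 0 := by exact_mod_cast (cod_pos he j).ne'
      have h2 : Qr T j μ a e = pm j μ a e / cod T j e := by simp [Qr, he]
      have hp : pm j μ a e ≠ 0 := fun h' => h0 (by rw [h2, h']; simp)
      rw [← mul_sub, ← Real.log_div hp hc, ← h2]
  have h2 : ∑ a, ∑ e, Qr T j μ a e * Real.log (pm j μ a e) =
      ∑ a, ∑ e, μ a e * Real.log (pm j μ a e) :=
    sum_congr rfl fun a _ => h.sum_Qr j a _ (fun e v => by rw [pm_update])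
  have h3 : ∑ a, ∑ e, Qr T j μ a e * Real.log (cod T j e) = hh T j := by
    rw [sum_comm]
    unfold hh
    rw [sum_div]
    rw [← sum_subset (subset_univ T)]
    · apply sum_congr rfl
      intro e he
      rw [← sum_mul, hQ.unif e he]
      ring
    · intro e _ he
      apply sum_eq_zero
      intro a _
      have : Qr T j μ a e = 0 := by simp [Qr, he]
      rw [this, zero_mul]
  rw [h1, h2, h3]
  unfold pent
  ring

lemma Law.pent_Qr (h : Law T p μ) (j : Fin 3) : pent j (Qr T j μ) = pent j μ := by
  unfold pent
  congr 1
  apply sum_congr rfl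
  intro a _
  simp only [h.pm_Qr j a]
  exact h.sum_Qr j a _ (fun e v => by rw [pm_update])

/-- The basic step. -/
lemma arc_step (hμ : Law T p μ) (hν : Law T p ν) (hpm : ∀ a e, pm j μ a e = pm j ν a e) :
    Arc T [j] μ ν (ent ν - pent j ν) := by
  classical
  refine ⟨fun a e e' => if e' = Function.update e j (e' j) then μ a e * ν a e' / pm j ν a e
    else 0, ⟨?_, ?_, ?_, ?_⟩, ?_⟩
  · intro a e e'
    split_ifs
    · exact div_nonneg (mul_nonneg (hμ.nonneg a e) (hν.nonneg a e')) (hν.pm_nonneg j a e)
    · exact le_rfl
  · intro a e e' h0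
    split_ifs at h0 with h1
    · have h2 : ν a e' ≠ 0 := fun h => h0 (by rw [h]; simp)
      have h3 := hν.supp a e' h2
      simp only [walks]
      rw [sum_eq_single (e' j)]
      · rw [if_pos (by rw [← h1]; exact h3), if_pos h1.symm]; simp
      · intro v _ hv
        split_ifs with h4 h5
        · exact absurd (by rw [← h5]; simp) hv
        · rfl
        · rfl
      · intro h; exact absurd (mem_univ _) h
    · exact absurd rfl h0
  · intro a e
    rw [sum_line j e (fun e' => μ a e * ν a e' / pm j ν a e), ← sum_div, ← mul_sum]
    change μ a e * pm j ν a e / pm j ν a e = μ a e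
    by_cases h0 : μ a e = 0
    · rw [h0]; simp
    · have := hμ.pm_ne_zero j h0
      rw [hpm] at this
      field_simp
  · intro a e'
    have h1 : ∀ e : Fin 3 → V, (if e' = Function.update e j (e' j) then
        μ a e * ν a e' / pm j ν a e else 0) = if e = Function.update e' j (e j) then
        μ a e * ν a e' / pm j ν a e' else 0 := by
      intro e
      by_cases h : e' = Function.update e j (e' j)
      · have h' : pm j ν a e' = pm j ν a e := by rw [h, pm_update]
        rw [if_pos h, if_pos ((line_symm j e e').1 h), h']
      · rw [if_neg h, if_neg (fun h' => h ((line_symm j e e').2 h'))]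
    rw [sum_congr rfl fun e _ => h1 e,
      sum_line j e' (fun e => μ a e * ν a e' / pm j ν a e'), ← sum_div, ← sum_mul]
    change pm j μ a e' * ν a e' / pm j ν a e' = ν a e'
    rw [hpm]
    by_cases h0 : ν a e' = 0
    · rw [h0]; simp
    · have := hν.pm_ne_zero j h0
      field_simp
  · -- the energy
    unfold En
    have key : ∀ a, ∑ e, ∑ e', (if e' = Function.update e j (e' j) then
        μ a e * ν a e' / pm j ν a e else 0) * Real.log ((walks T [j] e e' : ℝ) /
        (if e' = Function.update e j (e' j) then μ a e * ν a e' / pm j ν a e else 0)) =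
        - (∑ e, μ a e * Real.log (μ a e)) - (∑ e, ν a e * Real.log (ν a e)) +
        ∑ e, ν a e * Real.log (pm j ν a e) := by
      intro a
      have h1 : ∀ e e', (if e' = Function.update e j (e' j) then
        μ a e * ν a e' / pm j ν a e else 0) * Real.log ((walks T [j] e e' : ℝ) /
        (if e' = Function.update e j (e' j) then μ a e * ν a e' / pm j ν a e else 0)) =
        (if e' = Function.update e j (e' j) then
        μ a e * ν a e' / pm j ν a e else 0) * (- Real.log (μ a e) - Real.log (ν a e') +
          Real.log (pm j ν a e')) := by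
        intro e e'
        by_cases h2 : e' = Function.update e j (e' j)
        · rw [if_pos h2]
          by_cases h0 : μ a e * ν a e' / pm j ν a e = 0
          · rw [h0]; simp
          · have hm : μ a e ≠ 0 := fun h => h0 (by rw [h]; simp)
            have hn : ν a e' ≠ 0 := fun h => h0 (by rw [h]; simp)
            have hp : pm j ν a e ≠ 0 := fun h => h0 (by rw [h]; simp)
            have h3 := hν.supp a e' hn
            have hw : walks T [j] e e' = 1 := by
              simp only [walks]
              rw [sum_eq_single (e' j)]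
              · rw [if_pos (by rw [← h2]; exact h3), if_pos h2.symm]
              · intro v _ hv
                split_ifs with h4 h5
                · exact absurd (by rw [← h5]; simp) hv
                · rfl
                · rfl
              · intro h; exact absurd (mem_univ _) h
            have hp' : pm j ν a e' = pm j ν a e := by rw [h2, pm_update]
            rw [hw, hp', Nat.cast_one, Real.log_div one_ne_zero h0, Real.log_one,
              Real.log_div (mul_ne_zero hm hn) hp, Real.log_mul hm hn]
            ring
        · rw [if_neg h2]; simp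
      simp only [h1]
      have h2 : ∀ e, ∑ e', (if e' = Function.update e j (e' j) then
        μ a e * ν a e' / pm j ν a e else 0) * (- Real.log (μ a e) - Real.log (ν a e') +
          Real.log (pm j ν a e')) = - (μ a e * Real.log (μ a e)) +
          ∑ e', (if e' = Function.update e j (e' j) then μ a e * ν a e' / pm j ν a e else 0) *
          (- Real.log (ν a e') + Real.log (pm j ν a e')) := by
        intro e
        have h3 : ∑ e', (if e' = Function.update e j (e' j) then
            μ a e * ν a e' / pm j ν a e else 0) = μ a e := by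
          rw [sum_line j e (fun e' => μ a e * ν a e' / pm j ν a e), ← sum_div, ← mul_sum]
          change μ a e * pm j ν a e / pm j ν a e = μ a e
          by_cases h0 : μ a e = 0
          · rw [h0]; simp
          · have := hμ.pm_ne_zero j h0
            rw [hpm] at this
            field_simp
        have h4 : - (μ a e * Real.log (μ a e)) = ∑ e', (if e' = Function.update e j (e' j) then
            μ a e * ν a e' / pm j ν a e else 0) * (- Real.log (μ a e)) := by
          rw [← sum_mul, h3]; ring
        rw [h4, ← sum_add_distrib]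
        apply sum_congr rfl
        intro e' _
        ring
      rw [sum_congr rfl fun e _ => h2 e, sum_add_distrib, sum_neg_distrib, sum_comm]
      have h5 : ∀ e', ∑ e, (if e' = Function.update e j (e' j) then
          μ a e * ν a e' / pm j ν a e else 0) * (- Real.log (ν a e') + Real.log (pm j ν a e')) =
          - (ν a e' * Real.log (ν a e')) + ν a e' * Real.log (pm j ν a e') := by
        intro e'
        have h1 : ∀ e : Fin 3 → V, (if e' = Function.update e j (e' j) then
            μ a e * ν a e' / pm j ν a e else 0) = if e = Function.update e' j (e j) then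
            μ a e * ν a e' / pm j ν a e' else 0 := by
          intro e
          by_cases h : e' = Function.update e j (e' j)
          · have h' : pm j ν a e' = pm j ν a e := by rw [h, pm_update]
            rw [if_pos h, if_pos ((line_symm j e e').1 h), h']
          · rw [if_neg h, if_neg (fun h' => h ((line_symm j e e').2 h'))]
        have h6 : ∑ e, (if e' = Function.update e j (e' j) then
            μ a e * ν a e' / pm j ν a e else 0) = ν a e' := by
          rw [sum_congr rfl fun e _ => h1 e,
            sum_line j e' (fun e => μ a e * ν a e' / pm j ν a e'), ← sum_div, ← sum_mul]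
          change pm j μ a e' * ν a e' / pm j ν a e' = ν a e'
          rw [hpm]
          by_cases h0 : ν a e' = 0
          · rw [h0]; simp
          · have := hν.pm_ne_zero j h0
            field_simp
        rw [← sum_mul, h6]
        ring
      rw [sum_congr rfl fun e' _ => h5 e', sum_add_distrib, sum_neg_distrib]
      ring
    rw [sum_congr rfl fun a _ => key a, ent_eq, ent_eq]
    unfold pent
    rw [sum_add_distrib, sum_sub_distrib, sum_neg_distrib]
    linarith

/-- Stay. -/
lemma Law.stay (h : Law T p μ) (j : Fin 3) :
    Arc T [j] μ μ (hh T j - (ent (Qr T j μ) - ent μ)) := by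
  have := arc_step h h (j := j) (fun _ _ => rfl)
  rwa [show ent μ - pent j μ = hh T j - (ent (Qr T j μ) - ent μ) from by
    rw [h.ent_Qr j]; ring] at this

/-- Move up. -/
lemma Law.up (h : Law T p μ) (j : Fin 3) : Arc T [j] μ (Qr T j μ) (hh T j) := by
  have := arc_step h (h.Qr_law j) (j := j) (fun a e => (h.pm_Qr j a e).symm)
  rwa [show ent (Qr T j μ) - pent j (Qr T j μ) = hh T j from by
    rw [h.ent_Qr j, h.pent_Qr j]; ring] at this

/-- Move down. -/
lemma Law.down (h : Law T p μ) (j : Fin 3) :
    Arc T [j] (Qr T j μ) μ (hh T j - (ent (Qr T j μ) - ent μ)) := by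
  have := arc_step (h.Qr_law j) h (j := j) (fun a e => h.pm_Qr j a e)
  rwa [show ent μ - pent j μ = hh T j - (ent (Qr T j μ) - ent μ) from by
    rw [h.ent_Qr j]; ring] at this

end Q112.TS
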