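import Pool.Agent.Q112.TS.Step

/-!
# Going up and down
-/

namespace Q112.TS

open Finset

/-- The cyclic word of length `n` starting with the letter `j`. -/
def cw : Fin 3 → ℕ → List (Fin 3)
  | _, 0 => []
  | j, n + 1 => j :: cw (j + 1) n

lemma cw_add (m n : ℕ) (j : Fin 3) : cw j (m + n) = cw j m ++ cw (j + m • (1 : Fin 3)) n := by
  induction m generalizing j with
  | zero => simp [cw]
  | succ m ih =>
    rw [Nat.add_right_comm]
    simp only [cw, List.cons_append]
    rw [ih, succ_nsmul']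
    congr 3
    rw [add_assoc]

lemma nsmul_three (k : ℕ) : (3 * k) • (1 : Fin 3) = 0 := by
  have : (3 : ℕ) • (1 : Fin 3) = 0 := by decide
  rw [mul_nsmul, this, nsmul_zero]

lemma nsmul_two (k : ℕ) : (3 * k + 2) • (1 : Fin 3) = 2 := by
  rw [add_nsmul, nsmul_three]; decide

lemma word1 (j : Fin 3) (n : ℕ) (hn : n • (1 : Fin 3) = 2) :
    [j + 1] ++ cw (j + 1 + 1) n ++ [j + 1] ++ [j + 1 + 1] = cw (j + 1) (n + 2 + 1) := by
  rw [cw, cw_add, hn]
  have : j + 1 + 1 + 2 = j + 1 := by revert j; decide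
  rw [this]
  simp [cw]

lemma word2 (j : Fin 3) (n : ℕ) (hn : n • (1 : Fin 3) = 2) :
    [j + 1] ++ [j + 1 + 1] ++ cw (j + 1 + 1 + 1) n ++ [j + 1 + 1] = cw (j + 1) (n + 1 + 1 + 1) := by
  rw [cw, cw, cw_add, hn]
  have : j + 1 + 1 + 1 + 2 = j + 1 + 1 := by revert j; decide
  rw [this]
  simp [cw]

lemma cword_eq (ℓ : ℕ) : cword ℓ = cw 0 (3 * ℓ) := by
  induction ℓ with
  | zero => simp [cword, cw]
  | succ ℓ ih =>
    rw [show 3 * (ℓ + 1) = 3 * ℓ + 3 from by ring, cw_add, nsmul_three, ← ih]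
    simp only [cword, List.replicate_succ', List.flatten_append, List.flatten_singleton]
    rfl

variable {V A : Type} [Fintype V] [DecidableEq V] [Fintype A]
variable {T : Finset (Fin 3 → V)} {p : A → ℝ} {μ ν : A → (Fin 3 → V) → ℝ} {j : Fin 3}

lemma Law.ent_le (h : Law T p μ) (hT : T.Nonempty) [Nonempty A] :
    ent μ ≤ Real.log (Fintype.card A) + Real.log T.card := by
  classical
  have hTc : (0 : ℝ) < T.card := by exact_mod_cast hT.card_pos
  have hA : (0 : ℝ) < Fintype.card A := by exact_mod_cast Fintype.card_pos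
  have hsum : ∑ x : A × (Fin 3 → V), μ x.1 x.2 = 1 := by
    rw [Fintype.sum_prod_type, sum_comm, ← sum_subset (subset_univ T)]
    · rw [sum_congr rfl h.unif, sum_const, nsmul_eq_mul]
      field_simp
    · intro e _ he
      apply sum_eq_zero
      intro a _
      by_contra h0
      exact he (h.supp a e h0)
  have h1 := logsum (univ : Finset (A × (Fin 3 → V))) (fun x => μ x.1 x.2)
    (fun x => if x.2 ∈ T then 1 else 0) (fun x _ => h.nonneg _ _)
    (fun x _ => by split_ifs <;> norm_num)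
    (fun x _ h0 => by rw [if_pos (h.supp _ _ h0)]; norm_num)
  rw [hsum, one_mul, div_one] at h1
  have h2 : ∑ x : A × (Fin 3 → V), (if x.2 ∈ T then (1 : ℝ) else 0) =
      Fintype.card A * T.card := by
    rw [Fintype.sum_prod_type]
    simp
  rw [h2, Real.log_mul hA.ne' hTc.ne'] at h1
  refine le_trans (le_of_eq ?_) h1
  unfold ent
  rw [Fintype.sum_prod_type]
  apply sum_congr rfl
  intro a _
  apply sum_congr rfl
  intro e _
  by_cases h0 : μ a e = 0
  · simp [h0]
  · rw [if_pos (h.supp _ _ h0), Real.log_div one_ne_zero h0, Real.log_one]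
    unfold Real.negMulLog
    ring

/-- Going up `k` levels and down again. -/
lemma updown {h : ℝ} (hh_eq : ∀ j, hh T j = h) (hT : T.Nonempty) [Nonempty A] (k : ℕ) :
    ∀ (μ : A → (Fin 3 → V) → ℝ) (j : Fin 3), Law T p μ →
      Arc T (cw (j + 1) (3 * k + 2)) μ μ ((3 * k + 2) * h -
        2 * (Real.log (Fintype.card A) + Real.log T.card - ent μ)) := by
  induction k with
  | zero =>
    intro μ j hμ
    have h1 := (hμ.stay (j + 1)).comp (hμ.stay (j + 1 + 1))
    have h2 := (hμ.Qr_law (j + 1)).ent_le hT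
    have h3 := (hμ.Qr_law (j + 1 + 1)).ent_le hT
    refine Arc.mono (S := _) h1 ?_
    rw [hh_eq, hh_eq]
    push_cast
    linarith
  | succ k ih =>
    intro μ j hμ
    by_cases hc : ent (Qr T (j + 1 + 1) μ) ≤ ent (Qr T (j + 1) μ)
    · -- go up with the letter `j + 1`
      have h1 := ih (Qr T (j + 1) μ) (j + 1) (hμ.Qr_law _)
      have h2 := (((hμ.up (j + 1)).comp h1).comp (hμ.down (j + 1))).comp (hμ.stay (j + 1 + 1))
      rw [word1 j _ (nsmul_two k), show 3 * k + 2 + 2 + 1 = 3 * (k + 1) + 2 from by ring] at h2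
      refine h2.mono ?_
      rw [hh_eq, hh_eq]
      push_cast
      linarith
    · -- stay with `j + 1`, go up with `j + 2`
      push Not at hc
      have h1 := ih (Qr T (j + 1 + 1) μ) (j + 1 + 1) (hμ.Qr_law _)
      have h2 := (((hμ.stay (j + 1)).comp (hμ.up (j + 1 + 1))).comp h1).comp
        (hμ.down (j + 1 + 1))
      rw [word2 j _ (nsmul_two k), show 3 * k + 2 + 1 + 1 + 1 = 3 * (k + 1) + 2 from by ring] at h2
      refine h2.mono ?_
      rw [hh_eq, hh_eq]
      push_cast
      linarith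

end Q112.TS
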